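import Mathlib
import Pool.Agent.CCL.Sieve

/-!
# Cov/Var: the variance form of the large sieve for prime moduli

For distinct primes `π i ≤ z` and sets `R i` of residues,
`∑_{n < X} (∑_i (1_{n mod π i ∈ R i} - |R i|/π i))² ≤ (X + 4 z² (1 + log z²)) ∑_i |R i|/π i`.
-/

set_option autoImplicit false

namespace Pool.Agent.Hhelper69.Cov

open Finset Pool.MRZ Pool.Agent.CCL

/-- the centred indicator of a set of residues -/
noncomputable def ctr (l : ℕ) (R : Finset ℕ) (n : ℕ) : ℝ :=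
  (if n % l ∈ R then (1 : ℝ) else 0) - (R.card : ℝ) / l

theorem sum_ind (l : ℕ) (R : Finset ℕ) (hR : R ⊆ range l) (u v : ℝ) :
    ∑ h ∈ range l, (if h % l ∈ R then u else v) = R.card * u + ((l : ℝ) - R.card) * v := by
  have h1 : ∀ h ∈ range l, (if h % l ∈ R then u else v) = if h ∈ R then u else v := by
    intro h hh
    rw [Nat.mod_eq_of_lt (Finset.mem_range.1 hh)]
  rw [Finset.sum_congr rfl h1, Finset.sum_ite, Finset.sum_const, Finset.sum_const]
  have h2 : (range l).filter (fun h => h ∈ R) = R := by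
    ext h
    simp only [Finset.mem_filter]
    exact ⟨fun h3 => h3.2, fun h3 => ⟨hR h3, h3⟩⟩
  have h3 : ((range l).filter (fun h => h ∉ R)).card = l - R.card := by
    have h4 : (range l).filter (fun h => h ∉ R) = range l \ R := by
      ext h
      simp
    rw [h4, Finset.card_sdiff_of_subset hR, Finset.card_range]
  have h5 : R.card ≤ l := by
    have := Finset.card_le_card hR
    rwa [Finset.card_range] at this
  rw [h2, h3, nsmul_eq_mul, nsmul_eq_mul, Nat.cast_sub h5]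

theorem ctr_four (l : ℕ) (hl : 1 ≤ l) (R : Finset ℕ) (hR : R ⊆ range l) :
    ∃ c : ℕ → ℂ, (∀ n : ℕ, (ctr l R n : ℂ) = ∑ a ∈ Ico 1 l, c a * ee ((a : ℝ) / l * n)) ∧
      ∑ a ∈ Ico 1 l, ‖c a‖ ^ 2 ≤ (R.card : ℝ) / l := by
  have hl0 : (0 : ℝ) < l := by exact_mod_cast hl
  have hcard : (R.card : ℝ) ≤ l := by
    have := Finset.card_le_card hR
    rw [Finset.card_range] at this
    exact_mod_cast this
  have hform : ∀ n, ctr l R n =
      if n % l ∈ R then (1 - (R.card : ℝ) / l) else (-((R.card : ℝ) / l)) := by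
    intro n
    unfold ctr
    split_ifs <;> ring
  obtain ⟨c, h1, h2⟩ := fourier_one l hl (ctr l R) (fun n => by simp only [ctr, Nat.mod_mod]) (by
    rw [Finset.sum_congr rfl fun h _ => hform h, sum_ind l R hR]
    field_simp
    ring)
  refine ⟨c, h1, ?_⟩
  rw [h2]
  have h3 : ∀ h ∈ range l, (ctr l R h) ^ 2 =
      if h % l ∈ R then (1 - (R.card : ℝ) / l) ^ 2 else ((R.card : ℝ) / l) ^ 2 := by
    intro h _
    rw [hform]
    split_ifs <;> ring
  rw [Finset.sum_congr rfl h3, sum_ind l R hR]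
  have h4 : ((R.card : ℝ) * (1 - (R.card : ℝ) / l) ^ 2 +
      ((l : ℝ) - R.card) * ((R.card : ℝ) / l) ^ 2) / l =
      (R.card : ℝ) / l - ((R.card : ℝ) / l) ^ 2 := by
    field_simp
    ring
  rw [h4]
  have := sq_nonneg ((R.card : ℝ) / l)
  linarith

/-- fractions with distinct prime denominators at most `z` are `1/z²`-spaced modulo one -/
theorem frac_spaced (z p q a b : ℕ) (hp : p.Prime) (hq : q.Prime) (hpz : p ≤ z) (hqz : q ≤ z)
    (ha : 1 ≤ a) (hap : a < p) (hb : 1 ≤ b) (hbq : b < q) (hne : ¬ (p = q ∧ a = b)) (k : ℤ) :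
    1 / ((z ^ 2 : ℕ) : ℝ) ≤ |(a : ℝ) / p - (b : ℝ) / q - k| := by
  have hp0 : (0 : ℝ) < p := by exact_mod_cast hp.pos
  have hq0 : (0 : ℝ) < q := by exact_mod_cast hq.pos
  have e : (a : ℝ) / p - (b : ℝ) / q - k =
      (((a : ℤ) * q - b * p - k * p * q : ℤ) : ℝ) / ((p : ℝ) * q) := by
    push_cast
    field_simp
  have hnz : ((a : ℤ) * q - b * p - k * p * q : ℤ) ≠ 0 := by
    intro h0
    by_cases hpq : p = q
    · subst hpq
      have hp1 : (0 : ℤ) < p := by exact_mod_cast hp.pos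
      have h1 : (p : ℤ) * ((a : ℤ) - b - k * p) = 0 := by linarith
      have h2 : (a : ℤ) - b - k * p = 0 := by
        rcases mul_eq_zero.1 h1 with h3 | h3
        · omega
        · exact h3
      have h3 : (a : ℤ) - b = 0 := by
        apply Int.eq_zero_of_abs_lt_dvd (m := (p : ℤ)) ⟨k, by linarith⟩
        rw [abs_lt]
        constructor <;> omega
      exact hne ⟨rfl, by omega⟩
    · have h1 : (p : ℤ) ∣ (a : ℤ) * q := ⟨b + k * q, by linarith⟩
      have h2 : p ∣ a * q := by exact_mod_cast h1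
      rcases (Nat.Prime.dvd_mul hp).1 h2 with h3 | h3
      · exact absurd (Nat.le_of_dvd (by omega) h3) (by omega)
      · exact hpq ((Nat.prime_dvd_prime_iff_eq hp hq).1 h3)
  rw [e, abs_div, abs_of_pos (mul_pos hp0 hq0)]
  have h1 : (1 : ℝ) ≤ |(((a : ℤ) * q - b * p - k * p * q : ℤ) : ℝ)| := by
    rw [← Int.cast_abs]
    exact_mod_cast Int.one_le_abs hnz
  have hz0 : (0 : ℝ) < ((z ^ 2 : ℕ) : ℝ) := by
    have : 0 < z := lt_of_lt_of_le hp.pos hpz
    positivity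
  have h2 : (p : ℝ) * q ≤ ((z ^ 2 : ℕ) : ℝ) := by
    have : p * q ≤ z ^ 2 := by
      rw [sq]
      exact Nat.mul_le_mul hpz hqz
    exact_mod_cast this
  rw [div_le_div_iff₀ hz0 (mul_pos hp0 hq0)]
  calc 1 * ((p : ℝ) * q) ≤ ((z ^ 2 : ℕ) : ℝ) := by rw [one_mul]; exact h2
    _ = 1 * ((z ^ 2 : ℕ) : ℝ) := by ring
    _ ≤ _ := mul_le_mul_of_nonneg_right h1 hz0.le

theorem var_le {ι : Type*} [DecidableEq ι] (s : Finset ι) (π : ι → ℕ)
    (hinj : ∀ i ∈ s, ∀ j ∈ s, π i = π j → i = j)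
    (hpr : ∀ i ∈ s, (π i).Prime) (z X : ℕ) (hz : ∀ i ∈ s, π i ≤ z) (hz1 : 1 ≤ z)
    (R : ι → Finset ℕ) (hR : ∀ i ∈ s, R i ⊆ range (π i)) :
    ∑ n ∈ range X, (∑ i ∈ s, ctr (π i) (R i) n) ^ 2 ≤
      (X + 4 * ((z ^ 2 : ℕ) : ℝ) * (1 + Real.log ((z ^ 2 : ℕ) : ℝ))) *
        ∑ i ∈ s, ((R i).card : ℝ) / π i := by
  classical
  have hfour : ∀ i ∈ s, ∃ c : ℕ → ℂ,
      (∀ n : ℕ, (ctr (π i) (R i) n : ℂ) = ∑ a ∈ Ico 1 (π i), c a * ee ((a : ℝ) / π i * n)) ∧
      ∑ a ∈ Ico 1 (π i), ‖c a‖ ^ 2 ≤ ((R i).card : ℝ) / π i :=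
    fun i hi => ctr_four (π i) (hpr i hi).pos (R i) (hR i hi)
  choose! c hc1 hc2 using hfour
  have hQ1 : 1 ≤ z ^ 2 := Nat.one_le_pow _ _ hz1
  have hdls := dual_ls (s.sigma fun i => Ico 1 (π i)) (fun x : (Σ _ : ι, ℕ) => (x.2 : ℝ) / π x.1)
    (fun x => c x.1 x.2) X (z ^ 2) hQ1 (by
      rintro ⟨i, a⟩ hi ⟨j, b⟩ hj hne k
      rw [Finset.mem_sigma, Finset.mem_Ico] at hi hj
      refine frac_spaced z (π i) (π j) a b (hpr i hi.1) (hpr j hj.1) (hz i hi.1) (hz j hj.1)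
        hi.2.1 hi.2.2 hj.2.1 hj.2.2 ?_ k
      rintro ⟨h1, h2⟩
      apply hne
      have h3 := hinj i hi.1 j hj.1 h1
      subst h3
      rw [h2])
  have hL : ∀ n ∈ range X, (∑ i ∈ s, ctr (π i) (R i) n) ^ 2 =
      ‖∑ x ∈ s.sigma fun i => Ico 1 (π i), c x.1 x.2 * ee ((x.2 : ℝ) / π x.1 * n)‖ ^ 2 := by
    intro n _
    rw [Finset.sum_sigma]
    have h1 : ∑ i ∈ s, ∑ a ∈ Ico 1 (π i), c i a * ee ((a : ℝ) / π i * n) =
        ((∑ i ∈ s, ctr (π i) (R i) n : ℝ) : ℂ) := by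
      push_cast
      exact Finset.sum_congr rfl fun i hi => (hc1 i hi n).symm
    rw [h1, Complex.norm_real, Real.norm_eq_abs, sq_abs]
  rw [Finset.sum_congr rfl hL]
  refine hdls.trans ?_
  refine mul_le_mul_of_nonneg_left ?_ ?_
  · rw [Finset.sum_sigma]
    exact Finset.sum_le_sum fun i hi => hc2 i hi
  · have : 0 ≤ Real.log ((z ^ 2 : ℕ) : ℝ) := Real.log_nonneg (by exact_mod_cast hQ1)
    positivity

end Pool.Agent.Hhelper69.Cov
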