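import Mathlib
import Pool.Agent.Hhelper69.Cov.Var
import Pool.Agent.Hhelper87.Cover.Finite

/-!
# Cov/Rich: a small set is rich in few residue classes

`cls N l h` is the class of `h` modulo `l` in `[1, N]`; `rich N l Z` is the set of the residues `h < l` such
that at least half of `cls N l h` lies in `Z`.
-/

set_option autoImplicit false

namespace Pool.Agent.Hhelper69.Cov

open Finset

/-- the residue class of `h` modulo `l` in `[1, N]` -/
def cls (N l h : ℕ) : Finset ℕ := (Icc 1 N).filter fun n => n % l = h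

/-- the residues whose class is covered at least half by `Z` -/
def rich (N l : ℕ) (Z : Finset ℕ) : Finset ℕ :=
  (range l).filter fun h => (cls N l h).card ≤ 2 * (cls N l h ∩ Z).card

theorem rich_sub (N l : ℕ) (Z : Finset ℕ) : rich N l Z ⊆ range l := Finset.filter_subset _ _

theorem cls_card_ge (N l h : ℕ) (hh : h < l) : N / l ≤ (cls N l h).card := by
  have h1 := Pool.Agent.Hhelper87.Cover.ap_card_ge N l (by omega) (h : ℤ)
  have h2 : (Finset.Icc 1 N).filter (fun n : ℕ => (l : ℤ) ∣ (n : ℤ) - (h : ℤ)) = cls N l h := by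
    unfold cls
    refine Finset.filter_congr fun n _ => ?_
    constructor
    · intro h3
      have h4 : ((h : ℕ) : ℤ) ≡ n [ZMOD l] := Int.modEq_iff_dvd.2 h3
      have h5 : h ≡ n [MOD l] := (Int.natCast_modEq_iff).1 h4
      have h6 : h % l = n % l := h5
      rw [← h6, Nat.mod_eq_of_lt hh]
    · intro h3
      have h5 : h ≡ n [MOD l] := by
        show h % l = n % l
        rw [h3, Nat.mod_eq_of_lt hh]
      exact Int.modEq_iff_dvd.1 ((Int.natCast_modEq_iff).2 h5)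
  rwa [h2] at h1

theorem cls_card_ge' (N l h : ℕ) (hh : h < l) (hlN : l ≤ N) :
    (N : ℝ) / (2 * l) ≤ (cls N l h).card := by
  have hl0 : 0 < l := by omega
  have hl : (0 : ℝ) < l := by exact_mod_cast hl0
  have h1 := cls_card_ge N l h hh
  have h2 : 1 ≤ N / l := (Nat.one_le_div_iff hl0).2 hlN
  have h3 : N < l * (N / l + 1) := Nat.lt_mul_div_succ N hl0
  have h4 : N ≤ 2 * l * (N / l) := by nlinarith
  have h5 : (N : ℝ) ≤ 2 * l * ((N / l : ℕ) : ℝ) := by exact_mod_cast h4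
  have h6 : (((N / l : ℕ)) : ℝ) ≤ (cls N l h).card := by exact_mod_cast h1
  rw [div_le_iff₀ (by positivity)]
  nlinarith

theorem count_mod (Z : Finset ℕ) (l : ℕ) (R : Finset ℕ) :
    ∑ n ∈ Z, (if n % l ∈ R then (1 : ℝ) else 0) =
      ∑ h ∈ R, ((Z.filter fun n => n % l = h).card : ℝ) := by
  have h1 : ∀ h ∈ R, ((Z.filter fun n => n % l = h).card : ℝ) =
      ∑ n ∈ Z, (if n % l = h then (1 : ℝ) else 0) := by
    intro h _
    rw [Finset.sum_ite, Finset.sum_const_zero, add_zero, Finset.sum_const, nsmul_eq_mul, mul_one]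
  rw [Finset.sum_congr rfl h1, Finset.sum_comm]
  refine Finset.sum_congr rfl fun n _ => ?_
  rw [Finset.sum_ite_eq R (n % l) fun _ => (1 : ℝ)]

theorem rich_le {ι : Type*} [DecidableEq ι] (s : Finset ι) (π : ι → ℕ)
    (hinj : ∀ i ∈ s, ∀ j ∈ s, π i = π j → i = j)
    (hpr : ∀ i ∈ s, (π i).Prime) (z N : ℕ) (hz : ∀ i ∈ s, π i ≤ z) (hz1 : 1 ≤ z) (hzN : z ≤ N)
    (Z : Finset ℕ) (hZ : Z ⊆ Icc 1 N) (h8 : 8 * Z.card ≤ N) :
    (∑ i ∈ s, ((rich N (π i) Z).card : ℝ) / π i) * (N : ℝ) ^ 2 ≤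
      64 * Z.card * (((N + 1 : ℕ) : ℝ) +
        4 * ((z ^ 2 : ℕ) : ℝ) * (1 + Real.log ((z ^ 2 : ℕ) : ℝ))) := by
  obtain ⟨B, hB⟩ : ∃ B : ℝ, B = ∑ i ∈ s, ((rich N (π i) Z).card : ℝ) / π i := ⟨_, rfl⟩
  obtain ⟨W, hW⟩ : ∃ W : ℝ, W = ((N + 1 : ℕ) : ℝ) +
        4 * ((z ^ 2 : ℕ) : ℝ) * (1 + Real.log ((z ^ 2 : ℕ) : ℝ)) := ⟨_, rfl⟩
  have hvar := var_le s π hinj hpr z (N + 1) hz hz1 (fun i => rich N (π i) Z)
    fun i _ => rich_sub N (π i) Z
  rw [← hB, ← hW] at hvar
  rw [← hB, ← hW]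
  have hW0 : 0 ≤ W := by
    rw [hW]
    have : 0 ≤ Real.log ((z ^ 2 : ℕ) : ℝ) :=
      Real.log_nonneg (by exact_mod_cast Nat.one_le_pow _ _ hz1)
    positivity
  have hB0 : 0 ≤ B := by
    rw [hB]
    exact Finset.sum_nonneg fun i _ => by positivity
  have h8' : 8 * (Z.card : ℝ) ≤ N := by exact_mod_cast h8
  -- the sum over `Z`
  have hT : (N : ℝ) / 8 * B ≤ ∑ n ∈ Z, ∑ i ∈ s, ctr (π i) (rich N (π i) Z) n := by
    rw [Finset.sum_comm, hB, Finset.mul_sum]
    refine Finset.sum_le_sum fun i hi => ?_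
    have hl0 : (0 : ℝ) < π i := by exact_mod_cast (hpr i hi).pos
    have hlN : π i ≤ N := (hz i hi).trans hzN
    unfold ctr
    rw [Finset.sum_sub_distrib, count_mod, Finset.sum_const, nsmul_eq_mul]
    have h1 : ((rich N (π i) Z).card : ℝ) * (N / (4 * π i)) ≤
        ∑ h ∈ rich N (π i) Z, ((Z.filter fun n => n % π i = h).card : ℝ) := by
      rw [← nsmul_eq_mul, ← Finset.sum_const]
      refine Finset.sum_le_sum fun h hh => ?_
      have h2 : (cls N (π i) h).card ≤ 2 * (cls N (π i) h ∩ Z).card :=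
        (Finset.mem_filter.1 hh).2
      have h3 := cls_card_ge' N (π i) h (Finset.mem_range.1 (Finset.mem_filter.1 hh).1) hlN
      have h4 : (cls N (π i) h ∩ Z).card ≤ (Z.filter fun n => n % π i = h).card := by
        apply Finset.card_le_card
        intro n hn
        rw [Finset.mem_inter] at hn
        exact Finset.mem_filter.2 ⟨hn.2, (Finset.mem_filter.1 hn.1).2⟩
      have h5 : ((cls N (π i) h).card : ℝ) ≤ 2 * ((Z.filter fun n => n % π i = h).card : ℝ) := by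
        exact_mod_cast h2.trans (Nat.mul_le_mul_left 2 h4)
      have h6 : (N : ℝ) / (4 * π i) = (N : ℝ) / (2 * π i) / 2 := by
        field_simp
        norm_num
      rw [h6]
      linarith
    have h7 : ((rich N (π i) Z).card : ℝ) * (N / (4 * π i)) =
        (N : ℝ) / 4 * (((rich N (π i) Z).card : ℝ) / π i) := by
      field_simp
    rw [h7] at h1
    have h9 : 0 ≤ ((rich N (π i) Z).card : ℝ) / π i := by positivity
    nlinarith
  have hcs := sq_sum_le_card_mul_sum_sq (s := Z)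
    (f := fun n => ∑ i ∈ s, ctr (π i) (rich N (π i) Z) n)
  have hsub : ∑ n ∈ Z, (∑ i ∈ s, ctr (π i) (rich N (π i) Z) n) ^ 2 ≤
      ∑ n ∈ range (N + 1), (∑ i ∈ s, ctr (π i) (rich N (π i) Z) n) ^ 2 := by
    refine Finset.sum_le_sum_of_subset_of_nonneg ?_ fun _ _ _ => sq_nonneg _
    intro n hn
    have := Finset.mem_Icc.1 (hZ hn)
    exact Finset.mem_range.2 (by omega)
  have hmain : ((N : ℝ) / 8 * B) ^ 2 ≤ Z.card * (W * B) := by
    calc ((N : ℝ) / 8 * B) ^ 2
        ≤ (∑ n ∈ Z, ∑ i ∈ s, ctr (π i) (rich N (π i) Z) n) ^ 2 :=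
          pow_le_pow_left₀ (by positivity) hT 2
      _ ≤ Z.card * ∑ n ∈ Z, (∑ i ∈ s, ctr (π i) (rich N (π i) Z) n) ^ 2 := hcs
      _ ≤ Z.card * (W * B) :=
          mul_le_mul_of_nonneg_left (hsub.trans hvar) (by positivity)
  rcases eq_or_lt_of_le hB0 with h0 | h0
  · rw [← h0]
    have : 0 ≤ 64 * (Z.card : ℝ) * W := by positivity
    linarith
  · have h1 : (B * (N : ℝ) ^ 2) * B ≤ (64 * Z.card * W) * B := by nlinarith
    exact le_of_mul_le_mul_right h1 h0

end Pool.Agent.Hhelper69.Cov
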