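import Mathlib
import Pool.Agent.Hhelper69.Cov.Rich

/-!
# Cov/Count: fingerprints, and the number of choices with a small union
-/

set_option autoImplicit false

namespace Pool.Agent.Hhelper69.Cov

open Finset

/-- the union of the chosen classes over `I` -/
def uni {ι : Type*} [DecidableEq ι] (N : ℕ) (π : ι → ℕ) (a : ι → ℕ) (I : Finset ι) : Finset ℕ :=
  I.biUnion fun i => cls N (π i) (a i)

/-- greedy fingerprint: the classes outside `I` are covered at least half by the union over `I` -/
theorem fingerprint {ι : Type*} [Fintype ι] [DecidableEq ι] (C : ι → Finset ℕ) :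
    ∃ I : Finset ι, ∑ i ∈ I, (C i).card ≤ 2 * (I.biUnion C).card ∧
      ∀ i, i ∉ I → (C i).card ≤ 2 * (C i ∩ I.biUnion C).card := by
  obtain ⟨I, -, hI⟩ := Finset.exists_max_image (Finset.univ : Finset (Finset ι))
    (fun I => 2 * ((I.biUnion C).card : ℤ) - ∑ i ∈ I, ((C i).card : ℤ)) ⟨∅, Finset.mem_univ _⟩
  refine ⟨I, ?_, ?_⟩
  · have h := hI ∅ (Finset.mem_univ _)
    simp only [Finset.biUnion_empty, Finset.card_empty, Finset.sum_empty] at h
    have h2 : ∑ i ∈ I, ((C i).card : ℤ) ≤ 2 * ((I.biUnion C).card : ℤ) := by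
      push_cast at h
      linarith
    exact_mod_cast h2
  · intro i hi
    have h := hI (insert i I) (Finset.mem_univ _)
    simp only [Finset.sum_insert hi, Finset.biUnion_insert] at h
    have h3 := Finset.card_union_add_card_inter (C i) (I.biUnion C)
    have h4 : (((C i) ∪ I.biUnion C).card : ℤ) + ((C i ∩ I.biUnion C).card : ℤ) =
        (C i).card + (I.biUnion C).card := by exact_mod_cast h3
    have h5 : ((C i).card : ℤ) ≤ 2 * ((C i ∩ I.biUnion C).card : ℤ) := by linarith
    exact_mod_cast h5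

/-- the number of choices with a small union, reduced to a bound for the numbers of rich classes -/
theorem count_bad {ι : Type*} [Fintype ι] [DecidableEq ι] (π : ι → ℕ)
    (hpr : ∀ i, (π i).Prime) (z N : ℕ) (hz : ∀ i, π i ≤ z) (hz1 : 1 ≤ z) (hzN : z ≤ N)
    (M W : ℝ) (hWn : 0 ≤ W)
    (hW : ∀ (I : Finset ι) (Z : Finset ℕ), (I.card : ℝ) * N ≤ 4 * z * M → Z ⊆ Icc 1 N →
      (Z.card : ℝ) < M → (z : ℝ) ^ I.card * ∏ i ∈ Iᶜ, ((rich N (π i) Z).card : ℝ) ≤ W) :
    (((Fintype.piFinset fun i => range (π i)).filter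
      fun a => ((uni N π a Finset.univ).card : ℝ) < M).card : ℝ) ≤
      2 ^ Fintype.card ι * W := by
  classical
  obtain ⟨J, hJ⟩ : ∃ J : Finset (Finset ι), J =
      Finset.univ.filter fun I : Finset ι => (I.card : ℝ) * N ≤ 4 * z * M := ⟨_, rfl⟩
  obtain ⟨A, hA⟩ : ∃ A : Finset ι → Finset (ι → ℕ), ∀ I, A I =
      (Fintype.piFinset fun i => if i ∈ I then range (π i) else {0}).filter
        fun b => ((uni N π b I).card : ℝ) < M := ⟨_, fun _ => rfl⟩
  obtain ⟨D, hD⟩ : ∃ D : Finset ι → (ι → ℕ) → Finset (ι → ℕ), ∀ I b, D I b =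
      Fintype.piFinset fun i => if i ∈ I then {b i} else rich N (π i) (uni N π b I) :=
    ⟨_, fun _ _ => rfl⟩
  have hz0 : (0 : ℝ) < z := by exact_mod_cast hz1
  have hsub : ((Fintype.piFinset fun i => range (π i)).filter
      fun a => ((uni N π a Finset.univ).card : ℝ) < M) ⊆ J.biUnion fun I => (A I).biUnion (D I) := by
    intro a ha
    rw [Finset.mem_filter, Fintype.mem_piFinset] at ha
    obtain ⟨ha1, ha2⟩ := ha
    obtain ⟨I, hI1, hI2⟩ := fingerprint fun i => cls N (π i) (a i)
    have hle : (uni N π a I).card ≤ (uni N π a Finset.univ).card := by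
      apply Finset.card_le_card
      exact Finset.biUnion_subset_biUnion_of_subset_left _ (Finset.subset_univ I)
    have hle' : ((uni N π a I).card : ℝ) < M :=
      lt_of_le_of_lt (by exact_mod_cast hle) ha2
    have hIJ : I ∈ J := by
      rw [hJ, Finset.mem_filter]
      refine ⟨Finset.mem_univ _, ?_⟩
      have h1 : ∑ i ∈ I, (N : ℝ) / (2 * z) ≤ ∑ i ∈ I, ((cls N (π i) (a i)).card : ℝ) := by
        refine Finset.sum_le_sum fun i _ => ?_
        have h2 := cls_card_ge' N (π i) (a i) (Finset.mem_range.1 (ha1 i)) ((hz i).trans hzN)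
        refine le_trans ?_ h2
        have h3 : (0 : ℝ) < π i := by exact_mod_cast (hpr i).pos
        have h4 : (π i : ℝ) ≤ z := by exact_mod_cast hz i
        exact div_le_div_of_nonneg_left (by positivity) (by positivity) (by linarith)
      rw [Finset.sum_const, nsmul_eq_mul] at h1
      have h2 : ∑ i ∈ I, ((cls N (π i) (a i)).card : ℝ) ≤ 2 * ((uni N π a I).card : ℝ) := by
        exact_mod_cast hI1
      have h3 : (I.card : ℝ) * (N / (2 * z)) ≤ 2 * M := by linarith
      have h4 : (I.card : ℝ) * (N / (2 * z)) = (I.card : ℝ) * N / (2 * z) := by ring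
      rw [h4, div_le_iff₀ (by positivity)] at h3
      linarith
    obtain ⟨b, hb⟩ : ∃ b : ι → ℕ, ∀ i, b i = if i ∈ I then a i else 0 := ⟨_, fun _ => rfl⟩
    have hub : uni N π b I = uni N π a I := by
      unfold uni
      refine Finset.biUnion_congr rfl fun i hi => ?_
      rw [hb, if_pos hi]
    rw [Finset.mem_biUnion]
    refine ⟨I, hIJ, ?_⟩
    rw [Finset.mem_biUnion]
    refine ⟨b, ?_, ?_⟩
    · rw [hA, Finset.mem_filter, Fintype.mem_piFinset]
      refine ⟨fun i => ?_, by rw [hub]; exact hle'⟩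
      by_cases hi : i ∈ I
      · rw [if_pos hi, hb, if_pos hi]
        exact ha1 i
      · rw [if_neg hi, hb, if_neg hi]
        exact Finset.mem_singleton_self _
    · rw [hD, Fintype.mem_piFinset]
      intro i
      by_cases hi : i ∈ I
      · rw [if_pos hi, hb, if_pos hi]
        exact Finset.mem_singleton_self _
      · rw [if_neg hi, hub]
        exact Finset.mem_filter.2 ⟨ha1 i, hI2 i hi⟩
  have hDc : ∀ I b, ((D I b).card : ℝ) =
      ∏ i ∈ Iᶜ, ((rich N (π i) (uni N π b I)).card : ℝ) := by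
    intro I b
    rw [hD, Fintype.card_piFinset]
    push_cast
    rw [← Finset.prod_mul_prod_compl I]
    have h1 : ∏ i ∈ I, ((if i ∈ I then ({b i} : Finset ℕ) else
        rich N (π i) (uni N π b I)).card : ℝ) = 1 := by
      refine Finset.prod_eq_one fun i hi => ?_
      rw [if_pos hi, Finset.card_singleton, Nat.cast_one]
    rw [h1, one_mul]
    refine Finset.prod_congr rfl fun i hi => ?_
    rw [if_neg (Finset.mem_compl.1 hi)]
  have hAc : ∀ I, ((A I).card : ℝ) ≤ (z : ℝ) ^ I.card := by
    intro I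
    have h1 : (A I).card ≤ (Fintype.piFinset fun i => if i ∈ I then range (π i) else {0}).card := by
      rw [hA]
      exact Finset.card_filter_le _ _
    have h1' : ((A I).card : ℝ) ≤
        ((Fintype.piFinset fun i => if i ∈ I then range (π i) else {0}).card : ℝ) := by
      exact_mod_cast h1
    refine h1'.trans ?_
    rw [Fintype.card_piFinset]
    push_cast
    rw [← Finset.prod_mul_prod_compl I]
    have h2 : ∏ i ∈ Iᶜ, ((if i ∈ I then range (π i) else {0}).card : ℝ) = 1 := by
      refine Finset.prod_eq_one fun i hi => ?_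
      rw [if_neg (Finset.mem_compl.1 hi), Finset.card_singleton, Nat.cast_one]
    rw [h2, mul_one, ← Finset.prod_const]
    refine Finset.prod_le_prod (fun i _ => by positivity) fun i hi => ?_
    rw [if_pos hi, Finset.card_range]
    exact_mod_cast hz i
  have hW0 : ∀ I ∈ J, ∀ b ∈ A I, ((D I b).card : ℝ) * (z : ℝ) ^ I.card ≤ W := by
    intro I hI b hb
    rw [hJ, Finset.mem_filter] at hI
    rw [hA, Finset.mem_filter] at hb
    rw [hDc, mul_comm]
    refine hW I _ hI.2 ?_ hb.2
    intro n hn
    unfold uni at hn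
    rw [Finset.mem_biUnion] at hn
    obtain ⟨i, -, hi⟩ := hn
    exact (Finset.mem_filter.1 hi).1
  have hstep : ∀ I ∈ J, (((A I).biUnion (D I)).card : ℝ) ≤ W := by
    intro I hI
    have h1 : (((A I).biUnion (D I)).card : ℝ) ≤ ∑ b ∈ A I, ((D I b).card : ℝ) := by
      exact_mod_cast Finset.card_biUnion_le
    have hzI : (0 : ℝ) < (z : ℝ) ^ I.card := by positivity
    have h2 : ∀ b ∈ A I, ((D I b).card : ℝ) ≤ W / (z : ℝ) ^ I.card := by
      intro b hb
      rw [le_div_iff₀ hzI]
      exact hW0 I hI b hb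
    calc (((A I).biUnion (D I)).card : ℝ) ≤ ∑ b ∈ A I, ((D I b).card : ℝ) := h1
      _ ≤ ∑ b ∈ A I, W / (z : ℝ) ^ I.card := Finset.sum_le_sum h2
      _ = (A I).card * (W / (z : ℝ) ^ I.card) := by rw [Finset.sum_const, nsmul_eq_mul]
      _ ≤ (z : ℝ) ^ I.card * (W / (z : ℝ) ^ I.card) :=
          mul_le_mul_of_nonneg_right (hAc I) (by positivity)
      _ = W := by field_simp
  have hc : (((Fintype.piFinset fun i => range (π i)).filter
      fun a => ((uni N π a Finset.univ).card : ℝ) < M).card : ℝ) ≤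
      ∑ I ∈ J, (((A I).biUnion (D I)).card : ℝ) := by
    exact_mod_cast (Finset.card_le_card hsub).trans Finset.card_biUnion_le
  calc (((Fintype.piFinset fun i => range (π i)).filter
      fun a => ((uni N π a Finset.univ).card : ℝ) < M).card : ℝ)
      ≤ ∑ I ∈ J, (((A I).biUnion (D I)).card : ℝ) := hc
    _ ≤ ∑ I ∈ J, W := Finset.sum_le_sum hstep
    _ = J.card * W := by rw [Finset.sum_const, nsmul_eq_mul]
    _ ≤ 2 ^ Fintype.card ι * W := by
        refine mul_le_mul_of_nonneg_right ?_ hWn
        have h1 : J.card ≤ 2 ^ Fintype.card ι := by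
          rw [hJ]
          refine (Finset.card_filter_le _ _).trans ?_
          rw [Finset.card_univ, Fintype.card_finset]
        exact_mod_cast h1

end Pool.Agent.Hhelper69.Cov
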