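import Mathlib
import Pool.Agent.Hhelper69.Cov.Count

/-!
# Cov/Gen: the bound for the number of choices with a small union, asymptotic form
-/

set_option autoImplicit false

namespace Pool.Agent.Hhelper69.Cov

open Finset Filter Topology

theorem prod_le_avg {ι : Type*} (J : Finset ι) (x : ι → ℝ) (hx : ∀ i ∈ J, 0 ≤ x i)
    (hJ : 0 < J.card) : ∏ i ∈ J, x i ≤ ((∑ i ∈ J, x i) / J.card) ^ J.card := by
  have hc : (0 : ℝ) < J.card := by exact_mod_cast hJ
  have h := Real.geom_mean_le_arith_mean J (fun _ => (1 : ℝ)) x (fun _ _ => zero_le_one)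
    (by simpa using hJ) hx
  simp only [Real.rpow_one, Finset.sum_const, nsmul_eq_mul, mul_one, one_mul] at h
  have hP : 0 ≤ ∏ i ∈ J, x i := Finset.prod_nonneg hx
  have h2 := pow_le_pow_left₀ (Real.rpow_nonneg hP _) h J.card
  rwa [← Real.rpow_natCast, ← Real.rpow_mul hP, inv_mul_cancel₀ hc.ne', Real.rpow_one] at h2

/-- the bound for one fingerprint -/
theorem one_print {ι : Type*} [Fintype ι] [DecidableEq ι] (π : ι → ℕ) (hinj : Function.Injective π)
    (hpr : ∀ i, (π i).Prime) (z N : ℕ) (hz : ∀ i, π i ≤ z) (hz1 : 1 ≤ z) (hzN : z ≤ N)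
    (M Y c : ℝ) (hM1 : 1 ≤ M) (hM8 : 8 * M ≤ N) (hc : c ≤ 1 / 8) (hn : 0 < Fintype.card ι)
    (hnN : Fintype.card ι ≤ N)
    (hY : Y = 128 * z * M * (((N + 1 : ℕ) : ℝ) +
        4 * ((z ^ 2 : ℕ) : ℝ) * (1 + Real.log ((z ^ 2 : ℕ) : ℝ))) / ((N : ℝ) ^ 2 * Fintype.card ι))
    (hzM : 4 * (z : ℝ) * M ≤ 4 * c * Fintype.card ι * N)
    (I : Finset ι) (Z : Finset ℕ) (hI : (I.card : ℝ) * N ≤ 4 * z * M) (hZ : Z ⊆ Icc 1 N)
    (hZM : (Z.card : ℝ) < M) :
    (z : ℝ) ^ I.card * ∏ i ∈ Iᶜ, ((rich N (π i) Z).card : ℝ) ≤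
      ((N : ℝ) ^ (12 * c) * Y) ^ Fintype.card ι := by
  obtain ⟨n, hnd⟩ : ∃ n : ℕ, n = Fintype.card ι := ⟨_, rfl⟩
  obtain ⟨k, hk⟩ : ∃ k : ℕ, k = (Iᶜ : Finset ι).card := ⟨_, rfl⟩
  obtain ⟨t, ht⟩ : ∃ t : ℕ, t = I.card := ⟨_, rfl⟩
  have hkt : t + k = n := by
    rw [ht, hk, hnd]
    exact Finset.card_add_card_compl I
  rw [← hnd] at hn hnN hY hzM ⊢
  rw [← ht] at hI ⊢
  have hN1 : 1 ≤ N := hz1.trans hzN
  have hN0 : (0 : ℝ) < N := by exact_mod_cast hN1
  have hNR : (1 : ℝ) ≤ N := by exact_mod_cast hN1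
  have hz0 : (0 : ℝ) < z := by exact_mod_cast hz1
  have hn0 : (0 : ℝ) < n := by exact_mod_cast hn
  obtain ⟨V, hV⟩ : ∃ V : ℝ, V = ((N + 1 : ℕ) : ℝ) +
        4 * ((z ^ 2 : ℕ) : ℝ) * (1 + Real.log ((z ^ 2 : ℕ) : ℝ)) := ⟨_, rfl⟩
  rw [← hV] at hY
  have hVN : (N : ℝ) ≤ V := by
    rw [hV]
    have h1 : 0 ≤ Real.log ((z ^ 2 : ℕ) : ℝ) :=
      Real.log_nonneg (by exact_mod_cast Nat.one_le_pow _ _ hz1)
    have h2 : 0 ≤ 4 * ((z ^ 2 : ℕ) : ℝ) * (1 + Real.log ((z ^ 2 : ℕ) : ℝ)) := by positivity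
    push_cast
    push_cast at h2
    linarith
  have hV0 : 0 < V := lt_of_lt_of_le hN0 hVN
  have hY0 : 0 < Y := by
    rw [hY]
    positivity
  -- the size of `I`
  have htc : (t : ℝ) ≤ 4 * c * n := by
    have h1 : (t : ℝ) * N ≤ (4 * c * n) * N := hI.trans hzM
    exact le_of_mul_le_mul_right h1 hN0
  have htn : (t : ℝ) ≤ n / 2 := by
    have : 4 * c * n ≤ n / 2 := by nlinarith
    linarith
  have hkn : (n : ℝ) / 2 ≤ k := by
    have : (t : ℝ) + k = n := by exact_mod_cast hkt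
    linarith
  have hk0' : (0 : ℝ) < k := by linarith
  have hk0 : 0 < k := by exact_mod_cast hk0'
  -- the rich classes
  have h8 : 8 * Z.card ≤ N := by
    have : 8 * (Z.card : ℝ) ≤ N := by linarith
    exact_mod_cast this
  have hrich := rich_le (Iᶜ) π (fun i _ j _ h => hinj h) (fun i _ => hpr i) z N (fun i _ => hz i)
    hz1 hzN Z hZ h8
  rw [← hV] at hrich
  obtain ⟨B, hB⟩ : ∃ B : ℝ, B = ∑ i ∈ Iᶜ, ((rich N (π i) Z).card : ℝ) / π i := ⟨_, rfl⟩
  rw [← hB] at hrich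
  have hB1 : B * (N : ℝ) ^ 2 ≤ 64 * M * V := by
    refine hrich.trans ?_
    refine mul_le_mul_of_nonneg_right ?_ hV0.le
    linarith
  have hzB : z * B * 2 ≤ Y * n := by
    have h1 : Y * n = 2 * z * (64 * M * V) / (N : ℝ) ^ 2 := by
      rw [hY]
      field_simp
      ring
    rw [h1, le_div_iff₀ (by positivity)]
    nlinarith
  have hprod : ∏ i ∈ Iᶜ, ((rich N (π i) Z).card : ℝ) ≤ Y ^ k := by
    have h1 : ∏ i ∈ Iᶜ, ((rich N (π i) Z).card : ℝ) ≤
        ∏ i ∈ Iᶜ, ((z : ℝ) * (((rich N (π i) Z).card : ℝ) / π i)) := by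
      refine Finset.prod_le_prod (fun i _ => by positivity) fun i _ => ?_
      have hp0 : (0 : ℝ) < π i := by exact_mod_cast (hpr i).pos
      have hpz : (π i : ℝ) ≤ z := by exact_mod_cast hz i
      have h2 : (z : ℝ) * (((rich N (π i) Z).card : ℝ) / π i) =
          ((rich N (π i) Z).card : ℝ) * (z / π i) := by ring
      rw [h2]
      have h3 : 1 ≤ (z : ℝ) / π i := by
        rw [le_div_iff₀ hp0]
        linarith
      have h4 : (0 : ℝ) ≤ ((rich N (π i) Z).card : ℝ) := by positivity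
      nlinarith
    refine h1.trans ?_
    rw [Finset.prod_mul_distrib, Finset.prod_const]
    have h5 := prod_le_avg Iᶜ (fun i => ((rich N (π i) Z).card : ℝ) / π i)
      (fun i _ => by positivity) (by rw [← hk]; exact hk0)
    rw [← hB, ← hk] at h5
    rw [← hk]
    have hB0 : 0 ≤ B := by
      rw [hB]
      exact Finset.sum_nonneg fun i _ => by positivity
    calc (z : ℝ) ^ k * ∏ i ∈ Iᶜ, ((rich N (π i) Z).card : ℝ) / π i
        ≤ (z : ℝ) ^ k * (B / k) ^ k := mul_le_mul_of_nonneg_left h5 (by positivity)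
      _ = (z * B / k) ^ k := by rw [← mul_pow]; ring_nf
      _ ≤ Y ^ k := by
          refine pow_le_pow_left₀ (by positivity) ?_ k
          rw [div_le_iff₀ hk0']
          nlinarith
  -- from `k` to `n`
  have hYN : 1 ≤ Y * (N : ℝ) ^ 2 := by
    have h1 : Y * (N : ℝ) ^ 2 = 128 * z * M * V / n := by
      rw [hY]
      field_simp
    rw [h1, le_div_iff₀ hn0, one_mul]
    have h2 : (n : ℝ) ≤ N := by exact_mod_cast hnN
    have hz1' : (1 : ℝ) ≤ z := by exact_mod_cast hz1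
    have h3 : (1 : ℝ) ≤ 128 * z * M := by nlinarith
    nlinarith
  have hYk : Y ^ k ≤ Y ^ n * ((N : ℝ) ^ 2) ^ t := by
    rw [← hkt, pow_add]
    calc Y ^ k = Y ^ k * 1 := by ring
      _ ≤ Y ^ k * (Y * (N : ℝ) ^ 2) ^ t :=
          mul_le_mul_of_nonneg_left (one_le_pow₀ hYN) (by positivity)
      _ = _ := by rw [mul_pow]; ring
  have hzt : (z : ℝ) ^ t ≤ (N : ℝ) ^ t :=
    pow_le_pow_left₀ hz0.le (by exact_mod_cast hzN) t
  have hN3 : (N : ℝ) ^ t * ((N : ℝ) ^ 2) ^ t ≤ ((N : ℝ) ^ (12 * c)) ^ n := by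
    have h1 : (N : ℝ) ^ t * ((N : ℝ) ^ 2) ^ t = (N : ℝ) ^ ((3 * t : ℕ) : ℝ) := by
      rw [Real.rpow_natCast, ← pow_mul, ← pow_add]
      congr 1
      ring
    rw [h1, ← Real.rpow_natCast ((N : ℝ) ^ (12 * c)) n, ← Real.rpow_mul hN0.le]
    refine Real.rpow_le_rpow_of_exponent_le hNR ?_
    push_cast
    nlinarith
  calc (z : ℝ) ^ t * ∏ i ∈ Iᶜ, ((rich N (π i) Z).card : ℝ)
      ≤ (N : ℝ) ^ t * (Y ^ n * ((N : ℝ) ^ 2) ^ t) := by
        refine mul_le_mul hzt (hprod.trans hYk) ?_ (by positivity)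
        exact Finset.prod_nonneg fun i _ => by positivity
    _ = ((N : ℝ) ^ t * ((N : ℝ) ^ 2) ^ t) * Y ^ n := by ring
    _ ≤ ((N : ℝ) ^ (12 * c)) ^ n * Y ^ n := mul_le_mul_of_nonneg_right hN3 (by positivity)
    _ = _ := by rw [mul_pow]

theorem gen_bound (β δ c : ℝ) (hβ : 1 / 2 < β) (hβ1 : β < 1) (hc0 : 0 < c) (hc8 : c ≤ 1 / 8)
    (hcδ : 16 * c ≤ δ) :
    ∀ᶠ N : ℕ in atTop, ∀ (ι : Type) [Fintype ι] [DecidableEq ι] (π : ι → ℕ),
      Function.Injective π → (∀ i, (π i).Prime ∧ (π i : ℝ) ≤ (N : ℝ) ^ β) →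
      (N : ℝ) ^ (β - c) ≤ Fintype.card ι → ∀ M : ℝ, 0 ≤ M →
      M ≤ c * Fintype.card ι * (N : ℝ) ^ (1 - β) →
      (((Fintype.piFinset fun i => range (π i)).filter
        fun a => ((uni N π a Finset.univ).card : ℝ) < M).card : ℝ) ≤
        (M * (N : ℝ) ^ (2 * β - 2 + δ)) ^ Fintype.card ι := by
  have hlog : Tendsto (fun x : ℝ => Real.log x / x ^ (3 * c / 2)) atTop (𝓝 0) :=
    (isLittleO_log_rpow_atTop (by positivity)).tendsto_div_nhds_zero
  have hbig : Tendsto (fun x : ℝ => x ^ (3 * c / 2)) atTop atTop :=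
    tendsto_rpow_atTop (by positivity)
  have hcast := tendsto_natCast_atTop_atTop (R := ℝ)
  filter_upwards [hcast.eventually (hlog.eventually_lt_const (show (0 : ℝ) < 1 by norm_num)),
    hcast.eventually (hbig.eventually_ge_atTop (256 * 14)), eventually_ge_atTop 2] with
    N hN1 hN2 hN3 ι _ _ π hinj hπ hn M hM0 hM
  have hN0 : (0 : ℝ) < N := by
    have : (2 : ℝ) ≤ N := by exact_mod_cast hN3
    linarith
  have hNR : (1 : ℝ) ≤ N := by
    have : (2 : ℝ) ≤ N := by exact_mod_cast hN3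
    linarith
  obtain ⟨n, hnd⟩ : ∃ n : ℕ, n = Fintype.card ι := ⟨_, rfl⟩
  rw [← hnd] at hn hM ⊢
  have hn0 : (0 : ℝ) < n := lt_of_lt_of_le (Real.rpow_pos_of_pos hN0 _) hn
  have hn1 : 0 < n := by exact_mod_cast hn0
  obtain ⟨i0⟩ : Nonempty ι := Fintype.card_pos_iff.1 (by rw [← hnd]; exact hn1)
  obtain ⟨z, hzd⟩ : ∃ z : ℕ, z = ⌊(N : ℝ) ^ β⌋₊ := ⟨_, rfl⟩
  have hNβ : 0 < (N : ℝ) ^ β := Real.rpow_pos_of_pos hN0 _
  have hzle : (z : ℝ) ≤ (N : ℝ) ^ β := by rw [hzd]; exact Nat.floor_le hNβ.le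
  have hz : ∀ i, π i ≤ z := fun i => by rw [hzd]; exact Nat.le_floor (hπ i).2
  have hz1 : 1 ≤ z := (hπ i0).1.one_lt.le.trans (hz i0)
  have hNβN : (N : ℝ) ^ β ≤ N := by
    calc (N : ℝ) ^ β ≤ (N : ℝ) ^ (1 : ℝ) := Real.rpow_le_rpow_of_exponent_le hNR hβ1.le
      _ = N := Real.rpow_one _
  have hzN : z ≤ N := by exact_mod_cast hzle.trans hNβN
  have hnz : n ≤ z := by
    have h1 : (Finset.univ.image π).card = n := by
      rw [Finset.card_image_of_injective _ hinj, Finset.card_univ, hnd]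
    have h2 : Finset.univ.image π ⊆ Icc 1 z := by
      intro p hp
      rw [Finset.mem_image] at hp
      obtain ⟨i, -, rfl⟩ := hp
      exact Finset.mem_Icc.2 ⟨(hπ i).1.pos, hz i⟩
    have h3 := Finset.card_le_card h2
    rw [h1, Nat.card_Icc] at h3
    omega
  have hnβ : (n : ℝ) ≤ (N : ℝ) ^ β := le_trans (by exact_mod_cast hnz) hzle
  have hrhs : 0 ≤ (M * (N : ℝ) ^ (2 * β - 2 + δ)) ^ n := by positivity
  have e1 : (N : ℝ) ^ β * (N : ℝ) ^ (1 - β) = N := by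
    rw [← Real.rpow_add hN0]
    simp
  rcases lt_or_ge M 1 with hM1 | hM1
  · -- no choice has a union with fewer than one element
    have h1 : ((Fintype.piFinset fun i => range (π i)).filter
        fun a => ((uni N π a Finset.univ).card : ℝ) < M) = ∅ := by
      rw [Finset.filter_eq_empty_iff]
      intro a ha h2
      rw [Fintype.mem_piFinset] at ha
      have h3 := cls_card_ge N (π i0) (a i0) (Finset.mem_range.1 (ha i0))
      have h4 : 1 ≤ N / π i0 := (Nat.one_le_div_iff (hπ i0).1.pos).2 ((hz i0).trans hzN)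
      have h5 : (cls N (π i0) (a i0)).card ≤ (uni N π a Finset.univ).card := by
        apply Finset.card_le_card
        intro m hm
        exact Finset.mem_biUnion.2 ⟨i0, Finset.mem_univ _, hm⟩
      have h6 : (1 : ℝ) ≤ (uni N π a Finset.univ).card := by
        exact_mod_cast (h4.trans h3).trans h5
      linarith
    rw [h1, Finset.card_empty]
    simpa using hrhs
  · obtain ⟨Y, hY⟩ : ∃ Y : ℝ, Y = 128 * z * M * (((N + 1 : ℕ) : ℝ) +
        4 * ((z ^ 2 : ℕ) : ℝ) * (1 + Real.log ((z ^ 2 : ℕ) : ℝ))) / ((N : ℝ) ^ 2 * n) := ⟨_, rfl⟩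
    have hY0 : 0 ≤ Y := by
      rw [hY]
      have : 0 ≤ Real.log ((z ^ 2 : ℕ) : ℝ) :=
        Real.log_nonneg (by exact_mod_cast Nat.one_le_pow _ _ hz1)
      positivity
    have hMcN : M ≤ c * N := by
      calc M ≤ c * n * (N : ℝ) ^ (1 - β) := hM
        _ ≤ c * (N : ℝ) ^ β * (N : ℝ) ^ (1 - β) := by
            refine mul_le_mul_of_nonneg_right ?_ (Real.rpow_pos_of_pos hN0 _).le
            exact mul_le_mul_of_nonneg_left hnβ hc0.le
        _ = c * N := by rw [mul_assoc, e1]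
    have hzM : 4 * (z : ℝ) * M ≤ 4 * c * n * N := by
      calc 4 * (z : ℝ) * M ≤ 4 * (N : ℝ) ^ β * (c * n * (N : ℝ) ^ (1 - β)) := by
            refine mul_le_mul ?_ hM hM0 (by positivity)
            linarith
        _ = 4 * c * n * ((N : ℝ) ^ β * (N : ℝ) ^ (1 - β)) := by ring
        _ = 4 * c * n * N := by rw [e1]
    have hcount := count_bad π (fun i => (hπ i).1) z N hz hz1 hzN M
      (((N : ℝ) ^ (12 * c) * Y) ^ n) (by positivity) (by
        intro I Z hI hZ hZM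
        have := one_print π hinj (fun i => (hπ i).1) z N hz hz1 hzN M Y c hM1 (by nlinarith) hc8
          (by rw [← hnd]; exact hn1) (by rw [← hnd]; exact hnz.trans hzN) (by rw [← hnd]; exact hY)
          (by rw [← hnd]; exact hzM) I Z hI hZ hZM
        rw [← hnd] at this
        exact this)
    refine hcount.trans ?_
    rw [← hnd, ← mul_pow]
    refine pow_le_pow_left₀ (by positivity) ?_ n
    -- the final numerical inequality
    have hlogN : 0 ≤ Real.log N := Real.log_nonneg hNR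
    have hz2 : ((z ^ 2 : ℕ) : ℝ) ≤ (N : ℝ) ^ (2 * β) := by
      have h1 : (N : ℝ) ^ (2 * β) = ((N : ℝ) ^ β) ^ 2 := by
        rw [← Real.rpow_natCast ((N : ℝ) ^ β) 2, ← Real.rpow_mul hN0.le]
        congr 1
        push_cast
        ring
      rw [h1]
      push_cast
      exact pow_le_pow_left₀ (by positivity) hzle 2
    have hlz : Real.log ((z ^ 2 : ℕ) : ℝ) ≤ 2 * Real.log N := by
      have h1 : (0 : ℝ) < z := by exact_mod_cast hz1
      have h2 : Real.log ((z ^ 2 : ℕ) : ℝ) = 2 * Real.log z := by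
        push_cast
        rw [Real.log_pow]
        norm_num
      rw [h2]
      have h3 : Real.log z ≤ Real.log N := Real.log_le_log h1 (by exact_mod_cast hzN)
      linarith
    have hlz0 : 0 ≤ Real.log ((z ^ 2 : ℕ) : ℝ) :=
      Real.log_nonneg (by exact_mod_cast Nat.one_le_pow _ _ hz1)
    have hN2β : (N : ℝ) ≤ (N : ℝ) ^ (2 * β) := by
      calc (N : ℝ) = (N : ℝ) ^ (1 : ℝ) := (Real.rpow_one _).symm
        _ ≤ _ := Real.rpow_le_rpow_of_exponent_le hNR (by linarith)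
    have hV : ((N + 1 : ℕ) : ℝ) + 4 * ((z ^ 2 : ℕ) : ℝ) * (1 + Real.log ((z ^ 2 : ℕ) : ℝ)) ≤
        (N : ℝ) ^ (2 * β) * (6 + 8 * Real.log N) := by
      have h1 : ((N + 1 : ℕ) : ℝ) ≤ 2 * (N : ℝ) ^ (2 * β) := by
        push_cast
        linarith
      have h2 : 4 * ((z ^ 2 : ℕ) : ℝ) * (1 + Real.log ((z ^ 2 : ℕ) : ℝ)) ≤
          4 * (N : ℝ) ^ (2 * β) * (1 + 2 * Real.log N) := by
        refine mul_le_mul ?_ (by linarith) (by linarith) (by positivity)
        linarith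
      nlinarith
    have hx : 0 < (N : ℝ) ^ (3 * c / 2) := Real.rpow_pos_of_pos hN0 _
    have hln : 6 + 8 * Real.log N ≤ 14 * (N : ℝ) ^ (3 * c / 2) := by
      rw [div_lt_one hx] at hN1
      nlinarith
    have hfin : 256 * (6 + 8 * Real.log N) ≤ (N : ℝ) ^ (3 * c) := by
      have h1 : (N : ℝ) ^ (3 * c) = (N : ℝ) ^ (3 * c / 2) * (N : ℝ) ^ (3 * c / 2) := by
        rw [← Real.rpow_add hN0]
        congr 1
        ring
      rw [h1]
      nlinarith
    have hnum : Y ≤ M * (N : ℝ) ^ (2 * β - 2 + c) * (128 * (6 + 8 * Real.log N)) := by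
      rw [hY, div_le_iff₀ (by positivity)]
      have h1 : (N : ℝ) ^ (2 * β - 2 + c) * (N : ℝ) ^ (2 : ℝ) * (N : ℝ) ^ (β - c) =
          (N : ℝ) ^ β * (N : ℝ) ^ (2 * β) := by
        rw [← Real.rpow_add hN0, ← Real.rpow_add hN0, ← Real.rpow_add hN0]
        congr 1
        ring
      have h2 : (N : ℝ) ^ (2 : ℝ) = (N : ℝ) ^ 2 := by
        rw [← Real.rpow_natCast]
        norm_num
      rw [h2] at h1
      have hL : 0 ≤ 6 + 8 * Real.log N := by positivity
      calc 128 * z * M * (((N + 1 : ℕ) : ℝ) +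
            4 * ((z ^ 2 : ℕ) : ℝ) * (1 + Real.log ((z ^ 2 : ℕ) : ℝ)))
          ≤ 128 * (N : ℝ) ^ β * M * ((N : ℝ) ^ (2 * β) * (6 + 8 * Real.log N)) := by
            refine mul_le_mul ?_ hV (by positivity) (by positivity)
            refine mul_le_mul_of_nonneg_right ?_ hM0
            linarith
        _ = M * (128 * (6 + 8 * Real.log N)) * ((N : ℝ) ^ β * (N : ℝ) ^ (2 * β)) := by ring
        _ = M * (128 * (6 + 8 * Real.log N)) *
            ((N : ℝ) ^ (2 * β - 2 + c) * (N : ℝ) ^ 2 * (N : ℝ) ^ (β - c)) := by rw [h1]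
        _ ≤ M * (128 * (6 + 8 * Real.log N)) *
            ((N : ℝ) ^ (2 * β - 2 + c) * (N : ℝ) ^ 2 * n) := by
            refine mul_le_mul_of_nonneg_left ?_ (by positivity)
            exact mul_le_mul_of_nonneg_left hn (by positivity)
        _ = _ := by ring
    have h3 : (N : ℝ) ^ (12 * c) * (N : ℝ) ^ (2 * β - 2 + c) * (N : ℝ) ^ (3 * c) ≤
        (N : ℝ) ^ (2 * β - 2 + δ) := by
      rw [← Real.rpow_add hN0, ← Real.rpow_add hN0]
      exact Real.rpow_le_rpow_of_exponent_le hNR (by linarith)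
    calc 2 * ((N : ℝ) ^ (12 * c) * Y)
        ≤ 2 * ((N : ℝ) ^ (12 * c) *
          (M * (N : ℝ) ^ (2 * β - 2 + c) * (128 * (6 + 8 * Real.log N)))) := by
          refine mul_le_mul_of_nonneg_left ?_ (by norm_num)
          exact mul_le_mul_of_nonneg_left hnum (by positivity)
      _ = M * ((N : ℝ) ^ (12 * c) * (N : ℝ) ^ (2 * β - 2 + c) *
          (256 * (6 + 8 * Real.log N))) := by ring
      _ ≤ M * ((N : ℝ) ^ (12 * c) * (N : ℝ) ^ (2 * β - 2 + c) * (N : ℝ) ^ (3 * c)) := by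
          refine mul_le_mul_of_nonneg_left ?_ hM0
          exact mul_le_mul_of_nonneg_left hfin (by positivity)
      _ ≤ M * (N : ℝ) ^ (2 * β - 2 + δ) := mul_le_mul_of_nonneg_left h3 hM0

end Pool.Agent.Hhelper69.Cov
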