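import Mathlib
import Pool.Agent.Hhelper69.Cov.Gen
import Pool.Agent.Hhelper87.Cover.Asymp

/-!
# Cov/Cor: consequences for the threshold `N^(1-ε)`
-/

set_option autoImplicit false

namespace Pool.Agent.Hhelper69.Cov

open Finset Filter Topology

theorem ev_powN (C e1 e2 : ℝ) (h : e1 < e2) :
    ∀ᶠ N : ℕ in atTop, C * (N : ℝ) ^ e1 < (N : ℝ) ^ e2 :=
  (tendsto_natCast_atTop_atTop (R := ℝ)).eventually (Pool.Agent.Hhelper87.Cover.ev_pow C e1 e2 h)

/-- the threshold `N^(1-ε)` -/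
theorem cor_bound (β ε : ℝ) (hβ : 1 / 2 < β) (hβ1 : β < 1) (hε : 0 < ε) :
    ∃ c : ℝ, 0 < c ∧ ∀ᶠ N : ℕ in atTop, ∀ (ι : Type) [Fintype ι] [DecidableEq ι] (π : ι → ℕ),
      Function.Injective π → (∀ i, (π i).Prime ∧ (π i : ℝ) ≤ 2 * (N : ℝ) ^ β) →
      (N : ℝ) ^ (β - c) ≤ Fintype.card ι →
      (((Fintype.piFinset fun i => range (π i)).filter
        fun a => ((uni N π a Finset.univ).card : ℝ) < (N : ℝ) ^ (1 - ε)).card : ℝ) ≤
        ((N : ℝ) ^ (2 * β - 1 - ε / 2)) ^ Fintype.card ι := by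
  obtain ⟨c, hc⟩ : ∃ c : ℝ, c = min (ε / 64) (1 / 8) := ⟨_, rfl⟩
  have hc0 : 0 < c := by rw [hc]; positivity
  have hc8 : c ≤ 1 / 8 := by rw [hc]; exact min_le_right _ _
  have hcε : 64 * c ≤ ε := by
    have : c ≤ ε / 64 := by rw [hc]; exact min_le_left _ _
    linarith
  obtain ⟨η, hη⟩ : ∃ η : ℝ, η = min (c / 2) ((1 - β) / 2) := ⟨_, rfl⟩
  have hη0 : 0 < η := by
    rw [hη]
    have : 0 < (1 - β) / 2 := by linarith
    positivity
  have hηc : η ≤ c / 2 := by rw [hη]; exact min_le_left _ _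
  have hηβ : η ≤ (1 - β) / 2 := by rw [hη]; exact min_le_right _ _
  refine ⟨c / 2, by positivity, ?_⟩
  filter_upwards [gen_bound (β + η) (16 * c) c (by linarith) (by linarith) hc0 hc8 le_rfl,
    ev_powN 2 β (β + η) (by linarith), ev_powN (1 / c) (1 - ε) (1 - c) (by linarith),
    eventually_ge_atTop 2] with N h1 h2 h3 hN2 ι _ _ π hinj hπ hn
  have hN0 : (0 : ℝ) < N := by
    have : (2 : ℝ) ≤ N := by exact_mod_cast hN2
    linarith
  have hNR : (1 : ℝ) ≤ N := by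
    have : (2 : ℝ) ≤ N := by exact_mod_cast hN2
    linarith
  have hn' : (N : ℝ) ^ (β + η - c) ≤ Fintype.card ι := by
    refine le_trans (Real.rpow_le_rpow_of_exponent_le hNR ?_) hn
    linarith
  have h4 := h1 ι π hinj (fun i => ⟨(hπ i).1, (hπ i).2.trans h2.le⟩) hn' ((N : ℝ) ^ (1 - ε))
    (by positivity) (by
      have e1 : (N : ℝ) ^ (β + η - c) * (N : ℝ) ^ (1 - (β + η)) = (N : ℝ) ^ (1 - c) := by
        rw [← Real.rpow_add hN0]
        congr 1
        ring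
      have h5 : (N : ℝ) ^ (1 - ε) ≤ c * (N : ℝ) ^ (1 - c) := by
        have h6 : (N : ℝ) ^ (1 - ε) = c * (1 / c * (N : ℝ) ^ (1 - ε)) := by
          field_simp
        rw [h6]
        exact mul_le_mul_of_nonneg_left h3.le hc0.le
      refine h5.trans ?_
      rw [← e1, mul_assoc]
      refine mul_le_mul_of_nonneg_left ?_ hc0.le
      exact mul_le_mul_of_nonneg_right hn' (by positivity))
  refine h4.trans ?_
  refine pow_le_pow_left₀ (by positivity) ?_ _
  rw [← Real.rpow_add hN0]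
  refine Real.rpow_le_rpow_of_exponent_le hNR ?_
  linarith

/-- a large set of numbers has a large product -/
theorem prod_lower (β η : ℝ) (hη : 0 < η) (hηβ : η < β) (hβ1 : β ≤ 1) :
    ∀ᶠ N : ℕ in atTop, ∀ P : Finset ℕ, (∀ p ∈ P, 1 ≤ p) → (N : ℝ) ^ (β - η / 2) ≤ P.card →
      ((N : ℝ) ^ (β - 2 * η)) ^ P.card ≤ ∏ p ∈ P, (p : ℝ) := by
  filter_upwards [ev_powN (2 / η) (β - η) (β - η / 2) (by linarith),
    eventually_ge_atTop 2] with N h1 hN2 P hP hn
  have hN0 : (0 : ℝ) < N := by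
    have : (2 : ℝ) ≤ N := by exact_mod_cast hN2
    linarith
  have hNR : (1 : ℝ) ≤ N := by
    have : (2 : ℝ) ≤ N := by exact_mod_cast hN2
    linarith
  obtain ⟨T, hT⟩ : ∃ T : ℝ, T = (N : ℝ) ^ (β - η) := ⟨_, rfl⟩
  have hT1 : 1 ≤ T := by
    rw [hT]
    exact Real.one_le_rpow hNR (by linarith)
  rw [← hT] at h1
  obtain ⟨L, hL⟩ : ∃ L : Finset ℕ, L = P.filter fun p : ℕ => (p : ℝ) < T := ⟨_, rfl⟩
  have hLP : L ⊆ P := by rw [hL]; exact Finset.filter_subset _ _
  have hLc : (L.card : ℝ) ≤ η * P.card := by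
    have h2 : L ⊆ range (⌊T⌋₊ + 1) := by
      intro p hp
      rw [hL, Finset.mem_filter] at hp
      rw [Finset.mem_range]
      have := Nat.le_floor hp.2.le
      omega
    have h3 : L.card ≤ ⌊T⌋₊ + 1 := by
      have := Finset.card_le_card h2
      rwa [Finset.card_range] at this
    have h4 : (L.card : ℝ) ≤ ⌊T⌋₊ + 1 := by exact_mod_cast h3
    have h5 : ((⌊T⌋₊ : ℕ) : ℝ) ≤ T := Nat.floor_le (by linarith)
    have h6 : 2 * T ≤ η * P.card := by
      have h7 : 2 / η * T ≤ P.card := h1.le.trans hn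
      have h8 : 2 * T = η * (2 / η * T) := by field_simp
      rw [h8]
      exact mul_le_mul_of_nonneg_left h7 hη.le
    linarith
  have hk : (1 - η) * P.card ≤ ((P \ L).card : ℝ) := by
    have h2 : (P \ L).card + L.card = P.card := Finset.card_sdiff_add_card_eq_card hLP
    have h3 : ((P \ L).card : ℝ) + L.card = P.card := by exact_mod_cast h2
    linarith
  have h5 : T ^ (P \ L).card ≤ ∏ p ∈ P, (p : ℝ) := by
    rw [← Finset.prod_sdiff hLP, ← Finset.prod_const]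
    have h6 : ∏ p ∈ P \ L, T ≤ ∏ p ∈ P \ L, (p : ℝ) := by
      refine Finset.prod_le_prod (fun _ _ => by linarith) fun p hp => ?_
      rw [hL, Finset.mem_sdiff, Finset.mem_filter] at hp
      by_contra hcon
      push Not at hcon
      exact hp.2 ⟨hp.1, hcon⟩
    have h7 : (1 : ℝ) ≤ ∏ p ∈ L, (p : ℝ) := by
      refine Finset.one_le_prod fun p hp => ?_
      exact_mod_cast hP p (hLP hp)
    have h8 : 0 ≤ ∏ p ∈ P \ L, (p : ℝ) := Finset.prod_nonneg fun p _ => by positivity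
    nlinarith
  refine le_trans ?_ h5
  rw [hT, ← Real.rpow_natCast, ← Real.rpow_natCast ((N : ℝ) ^ (β - η)) (P \ L).card,
    ← Real.rpow_mul hN0.le, ← Real.rpow_mul hN0.le]
  refine Real.rpow_le_rpow_of_exponent_le hNR ?_
  have h9 : 0 ≤ (P.card : ℝ) := by positivity
  have h10 : β - 2 * η ≤ (β - η) * (1 - η) := by nlinarith
  calc (β - 2 * η) * P.card ≤ ((β - η) * (1 - η)) * P.card := mul_le_mul_of_nonneg_right h10 h9
    _ = (β - η) * ((1 - η) * P.card) := by ring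
    _ ≤ (β - η) * ((P \ L).card : ℝ) := mul_le_mul_of_nonneg_left hk (by linarith)

end Pool.Agent.Hhelper69.Cov
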