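import Mathlib
import Pool.Agent.Hhelper87.Cover.Finite

/-!
# Cov/Dil: the classes of the dilated choices `l * a(p)`, `l ≤ L`, in the box `[1, L] × [1, N]`
-/

set_option autoImplicit false

namespace Pool.Agent.Hhelper69.Cov

open Finset

theorem sum_sq_le_of_common {α β : Type*} (V : Finset α) (P : Finset β) (I : α → β → Prop)
    [∀ a b, Decidable (I a b)] (H : ℕ)
    (hone : ∀ p ∈ P, ∀ q ∈ P, p ≠ q → (V.filter fun n => I n p ∧ I n q).card ≤ H) :
    ∑ n ∈ V, (P.filter (fun p => I n p)).card ^ 2 ≤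
      ∑ n ∈ V, (P.filter (fun p => I n p)).card + H * P.card ^ 2 := by
  classical
  have h1 : ∀ n ∈ V, (P.filter (fun p => I n p)).card ^ 2 =
      ∑ p ∈ P, ∑ q ∈ P, if (I n p ∧ I n q) then 1 else 0 := by
    intro n _
    rw [sq, Finset.card_filter, Finset.sum_mul_sum]
    refine Finset.sum_congr rfl fun p _ => Finset.sum_congr rfl fun q _ => ?_
    by_cases hp : I n p <;> by_cases hq : I n q <;> simp [hp, hq]
  rw [Finset.sum_congr rfl h1, Finset.sum_comm]
  have h2 : ∀ p ∈ P, ∑ n ∈ V, ∑ q ∈ P, (if (I n p ∧ I n q) then 1 else 0) ≤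
      (V.filter (fun n => I n p)).card + H * P.card := by
    intro p hp
    rw [Finset.sum_comm]
    have h3 : ∀ q ∈ P, ∑ n ∈ V, (if (I n p ∧ I n q) then 1 else 0) ≤
        (if q = p then (V.filter (fun n => I n p)).card else 0) + H := by
      intro q hq
      by_cases hqp : q = p
      · subst hqp
        rw [if_pos rfl, Finset.card_filter]
        have : ∀ n ∈ V, (if (I n q ∧ I n q) then 1 else 0) = (if I n q then 1 else 0) := by
          intro n _; simp
        rw [Finset.sum_congr rfl this]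
        omega
      · rw [if_neg hqp, zero_add, ← Finset.card_filter]
        exact hone p hp q hq fun h => hqp h.symm
    refine (Finset.sum_le_sum h3).trans ?_
    rw [Finset.sum_add_distrib, Finset.sum_ite_eq' P p, if_pos hp, Finset.sum_const,
      smul_eq_mul, mul_comm P.card H]
  refine (Finset.sum_le_sum h2).trans ?_
  rw [Finset.sum_add_distrib]
  have h4 : ∑ p ∈ P, (V.filter (fun n => I n p)).card =
      ∑ n ∈ V, (P.filter (fun p => I n p)).card :=
    (Finset.sum_card_bipartiteAbove_eq_sum_card_bipartiteBelow I).symm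
  rw [h4, Finset.sum_const, smul_eq_mul]
  nlinarith

/-- the vector `v = (l, n)` lies in the lattice of `p` -/
def On (a : ℕ → ℤ) (v : ℕ × ℕ) (p : ℕ) : Prop := (p : ℤ) ∣ (v.2 : ℤ) - (v.1 : ℤ) * a p

instance (a : ℕ → ℤ) (v : ℕ × ℕ) (p : ℕ) : Decidable (On a v p) :=
  inferInstanceAs (Decidable ((p : ℤ) ∣ (v.2 : ℤ) - (v.1 : ℤ) * a p))

/-- two vectors on a line through the origin with the same common divisor are equal -/
theorem eq_of_det {l n l' n' : ℕ} (hl : 1 ≤ l) (h : l * n' = l' * n)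
    (hg : Nat.gcd l n = Nat.gcd l' n') : l = l' ∧ n = n' := by
  have hgpos : 0 < Nat.gcd l n := Nat.gcd_pos_of_pos_left _ hl
  have h8 : l * Nat.gcd l' n' = l' * Nat.gcd l n := by
    rw [← Nat.gcd_mul_left, ← Nat.gcd_mul_left, h, mul_comm l l']
  rw [← hg] at h8
  have h9 : l = l' := Nat.eq_of_mul_eq_mul_right hgpos h8
  subst h9
  exact ⟨rfl, (Nat.eq_of_mul_eq_mul_left hl h).symm⟩

theorem floor_ne {x y : ℝ} (hx : 0 ≤ x) (h : x + 1 ≤ y) : ⌊x⌋₊ ≠ ⌊y⌋₊ := by
  intro he
  have h1 : ((⌊x⌋₊ : ℕ) : ℝ) ≤ x := Nat.floor_le hx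
  have h2 : y < ⌊y⌋₊ + 1 := Nat.lt_floor_add_one y
  rw [← he] at h2
  linarith

/-- vectors `v` in the box `[1, L] × [1, N]`, any two of them on different lines through the origin
having determinant at least `m`: few of them have slope at most `N / L` -/
theorem half_le (N L H : ℕ) (m : ℝ) (hm : 0 < m) (V : Finset (ℕ × ℕ))
    (hV : ∀ v ∈ V, (1 ≤ v.1 ∧ v.1 ≤ L) ∧ (1 ≤ v.2 ∧ v.2 ≤ N) ∧ Nat.gcd v.1 v.2 < H)
    (hs : ∀ v ∈ V, v.2 * L ≤ N * v.1)
    (hdet : ∀ v ∈ V, ∀ w ∈ V, v.1 * w.2 ≠ w.1 * v.2 →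
      m ≤ |(v.1 : ℝ) * w.2 - w.1 * v.2|) :
    (V.card : ℝ) ≤ H * (L * N / m + 1) := by
  classical
  obtain ⟨k, hk⟩ : ∃ k : ℕ, k = ⌊(L : ℝ) * N / m⌋₊ := ⟨_, rfl⟩
  obtain ⟨sl, hsl⟩ : ∃ sl : ℕ × ℕ → ℝ, ∀ v, sl v = (v.2 : ℝ) * L ^ 2 / (v.1 * m) := ⟨_, fun _ => rfl⟩
  have hsl0 : ∀ v, 0 ≤ sl v := fun v => by rw [hsl]; positivity
  have hsub : V.card ≤ (range H ×ˢ range (k + 1)).card := by
    refine Finset.card_le_card_of_injOn (fun v => (Nat.gcd v.1 v.2, ⌊sl v⌋₊)) ?_ ?_
    · intro v hv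
      rw [Finset.mem_coe] at hv
      obtain ⟨⟨h1, h2⟩, ⟨h3, h4⟩, h5⟩ := hV v hv
      have h6 := hs v hv
      rw [Finset.mem_coe, Finset.mem_product, Finset.mem_range, Finset.mem_range]
      refine ⟨h5, ?_⟩
      have h7 : sl v ≤ L * N / m := by
        have hv1 : (0 : ℝ) < v.1 := by exact_mod_cast h1
        have h8 : (v.2 : ℝ) * L ≤ N * v.1 := by exact_mod_cast h6
        rw [hsl, div_le_div_iff₀ (by positivity) hm]
        have h9 : (v.2 : ℝ) * L ^ 2 ≤ L * N * v.1 := by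
          have : (0 : ℝ) ≤ L := by positivity
          nlinarith
        nlinarith
      have h8 := Nat.floor_le_floor h7
      rw [← hk] at h8
      show ⌊sl v⌋₊ < k + 1
      omega
    · intro v hv w hw h
      rw [Finset.mem_coe] at hv hw
      obtain ⟨⟨h1, h2⟩, ⟨h3, h4⟩, h5⟩ := hV v hv
      obtain ⟨⟨h1', h2'⟩, ⟨h3', h4'⟩, h5'⟩ := hV w hw
      have hg : Nat.gcd v.1 v.2 = Nat.gcd w.1 w.2 := congrArg Prod.fst h
      have hf : ⌊sl v⌋₊ = ⌊sl w⌋₊ := congrArg Prod.snd h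
      by_cases hd : v.1 * w.2 = w.1 * v.2
      · obtain ⟨e1, e2⟩ := eq_of_det h1 hd hg
        exact Prod.ext e1 e2
      · exfalso
        have h6 := hdet v hv w hw hd
        have hv1 : (0 : ℝ) < v.1 := by exact_mod_cast h1
        have hw1 : (0 : ℝ) < w.1 := by exact_mod_cast h1'
        have hvL : (v.1 : ℝ) ≤ L := by exact_mod_cast h2
        have hwL : (w.1 : ℝ) ≤ L := by exact_mod_cast h2'
        have h7 : sl w - sl v = L ^ 2 / (v.1 * w.1 * m) * ((v.1 : ℝ) * w.2 - w.1 * v.2) := by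
          rw [hsl, hsl]
          field_simp
        have h8 : (v.1 : ℝ) * w.1 ≤ L ^ 2 := by
          rw [sq]
          exact mul_le_mul hvL hwL hw1.le (by positivity)
        have h9 : 1 ≤ (L : ℝ) ^ 2 / (v.1 * w.1 * m) * m := by
          rw [div_mul_eq_mul_div, le_div_iff₀ (by positivity)]
          nlinarith
        have h10 : 0 < (L : ℝ) ^ 2 / (v.1 * w.1 * m) := by
          by_contra hcon
          push Not at hcon
          nlinarith
        rcases le_or_gt 0 ((v.1 : ℝ) * w.2 - w.1 * v.2) with h11 | h11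
        · rw [abs_of_nonneg h11] at h6
          have h12 : 1 ≤ sl w - sl v := by
            rw [h7]
            exact h9.trans (mul_le_mul_of_nonneg_left h6 h10.le)
          exact floor_ne (hsl0 v) (by linarith) hf
        · rw [abs_of_neg h11] at h6
          have h12 : 1 ≤ sl v - sl w := by
            have h13 : sl v - sl w = L ^ 2 / (v.1 * w.1 * m) *
                (-((v.1 : ℝ) * w.2 - w.1 * v.2)) := by
              rw [mul_neg, ← h7]
              ring
            rw [h13]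
            exact h9.trans (mul_le_mul_of_nonneg_left h6 h10.le)
          exact floor_ne (hsl0 w) (by linarith) hf.symm
  rw [Finset.card_product, Finset.card_range, Finset.card_range] at hsub
  have h1 : (V.card : ℝ) ≤ H * (k + 1) := by exact_mod_cast hsub
  have h2 : (k : ℝ) ≤ L * N / m := by
    rw [hk]
    exact Nat.floor_le (by positivity)
  refine h1.trans (mul_le_mul_of_nonneg_left (by linarith) (by positivity))

theorem pair_le (a : ℕ → ℤ) (N L H p q : ℕ) (x : ℝ) (hx : 0 < x) (hp : p.Prime) (hq : q.Prime)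
    (hpq : p ≠ q) (hxp : x ≤ p) (hxq : x ≤ q) (V : Finset (ℕ × ℕ))
    (hV : ∀ v ∈ V, (1 ≤ v.1 ∧ v.1 ≤ L) ∧ (1 ≤ v.2 ∧ v.2 ≤ N) ∧ Nat.gcd v.1 v.2 < H) :
    ((V.filter fun v => On a v p ∧ On a v q).card : ℝ) ≤ 2 * (H * (L * N / x ^ 2 + 1)) := by
  classical
  obtain ⟨V', hV'⟩ : ∃ V' : Finset (ℕ × ℕ), V' = V.filter fun v => On a v p ∧ On a v q :=
    ⟨_, rfl⟩
  rw [← hV']
  have hx2 : (0 : ℝ) < x ^ 2 := by positivity
  have hVV : ∀ v ∈ V', (1 ≤ v.1 ∧ v.1 ≤ L) ∧ (1 ≤ v.2 ∧ v.2 ≤ N) ∧ Nat.gcd v.1 v.2 < H := by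
    intro v hv
    rw [hV', Finset.mem_filter] at hv
    exact hV v hv.1
  have hdet : ∀ v ∈ V', ∀ w ∈ V', v.1 * w.2 ≠ w.1 * v.2 →
      x ^ 2 ≤ |(v.1 : ℝ) * w.2 - w.1 * v.2| := by
    intro v hv w hw hne
    rw [hV', Finset.mem_filter] at hv hw
    have hd : ∀ r : ℕ, On a v r → On a w r → (r : ℤ) ∣ (v.1 : ℤ) * w.2 - w.1 * v.2 := by
      intro r h1 h2
      have h1' : (r : ℤ) ∣ (v.2 : ℤ) - v.1 * a r := h1
      have h2' : (r : ℤ) ∣ (w.2 : ℤ) - w.1 * a r := h2
      have e : (v.1 : ℤ) * w.2 - w.1 * v.2 =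
          v.1 * ((w.2 : ℤ) - w.1 * a r) - w.1 * ((v.2 : ℤ) - v.1 * a r) := by ring
      rw [e]
      exact dvd_sub (Dvd.dvd.mul_left h2' _) (Dvd.dvd.mul_left h1' _)
    have hcop : IsCoprime (p : ℤ) (q : ℤ) := by
      rw [Nat.isCoprime_iff_coprime]
      exact (Nat.coprime_primes hp hq).2 hpq
    have h1 : (p : ℤ) * q ∣ (v.1 : ℤ) * w.2 - w.1 * v.2 :=
      hcop.mul_dvd (hd p hv.2.1 hw.2.1) (hd q hv.2.2 hw.2.2)
    have h2 : (v.1 : ℤ) * w.2 - w.1 * v.2 ≠ 0 := by
      intro h3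
      apply hne
      have h4 : (v.1 : ℤ) * w.2 = w.1 * v.2 := by linarith
      exact_mod_cast h4
    have h3 : (p : ℤ) * q ≤ |(v.1 : ℤ) * w.2 - w.1 * v.2| := by
      have := Int.le_of_dvd (abs_pos.2 h2) ((dvd_abs _ _).2 h1)
      exact this
    have h4 : (p : ℝ) * q ≤ |(v.1 : ℝ) * w.2 - w.1 * v.2| := by exact_mod_cast h3
    refine le_trans ?_ h4
    rw [sq]
    exact mul_le_mul hxp hxq hx.le (by positivity)
  -- small slopes
  have h1 := half_le N L H (x ^ 2) hx2 (V'.filter fun v => v.2 * L ≤ N * v.1)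
    (fun v hv => hVV v (Finset.mem_filter.1 hv).1) (fun v hv => (Finset.mem_filter.1 hv).2)
    (fun v hv w hw hne => hdet v (Finset.mem_filter.1 hv).1 w (Finset.mem_filter.1 hw).1 hne)
  -- large slopes
  obtain ⟨V2, hV2⟩ : ∃ V2 : Finset (ℕ × ℕ), V2 = V'.filter fun v => ¬ v.2 * L ≤ N * v.1 :=
    ⟨_, rfl⟩
  have hcard : (V2.image Prod.swap).card = V2.card :=
    Finset.card_image_of_injective _ Prod.swap_injective
  have h2 := half_le L N H (x ^ 2) hx2 (V2.image Prod.swap) (by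
      intro v hv
      rw [Finset.mem_image] at hv
      obtain ⟨w, hw, rfl⟩ := hv
      rw [hV2] at hw
      obtain ⟨g1, g2, g3⟩ := hVV w (Finset.mem_filter.1 hw).1
      refine ⟨g2, g1, ?_⟩
      show Nat.gcd w.2 w.1 < H
      rw [Nat.gcd_comm]
      exact g3) (by
      intro v hv
      rw [Finset.mem_image] at hv
      obtain ⟨w, hw, rfl⟩ := hv
      rw [hV2] at hw
      have g := (Finset.mem_filter.1 hw).2
      show w.1 * N ≤ L * w.2
      push Not at g
      nlinarith) (by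
      intro v hv w hw hne
      rw [Finset.mem_image] at hv hw
      obtain ⟨v', hv', rfl⟩ := hv
      obtain ⟨w', hw', rfl⟩ := hw
      rw [hV2] at hv' hw'
      have hne' : v'.1 * w'.2 ≠ w'.1 * v'.2 := by
        intro h
        apply hne
        show v'.2 * w'.1 = w'.2 * v'.1
        rw [mul_comm v'.2, mul_comm w'.2]
        exact h.symm
      have g := hdet v' (Finset.mem_filter.1 hv').1 w' (Finset.mem_filter.1 hw').1 hne'
      show x ^ 2 ≤ |(v'.2 : ℝ) * w'.1 - w'.2 * v'.1|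
      rw [← abs_neg]
      have e : -((v'.2 : ℝ) * w'.1 - w'.2 * v'.1) = (v'.1 : ℝ) * w'.2 - w'.1 * v'.2 := by ring
      rw [e]
      exact g)
  rw [hcard, mul_comm (N : ℝ) L] at h2
  have h3 : (V'.filter fun v => v.2 * L ≤ N * v.1).card + V2.card = V'.card := by
    rw [hV2]
    exact Finset.card_filter_add_card_filter_not _
  have h4 : (V'.card : ℝ) = ((V'.filter fun v => v.2 * L ≤ N * v.1).card : ℝ) + V2.card := by
    exact_mod_cast h3.symm
  rw [h4]
  linarith

/-- the points of one row with a large common divisor -/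
theorem row_gcd (a : ℕ → ℤ) (N l H p : ℕ) (hp : p.Prime) (hH : 1 ≤ H) (hl : 1 ≤ l)
    (hlp : l < p) :
    (((Icc 1 N).filter fun n => On a (l, n) p ∧ H ≤ Nat.gcd l n).card : ℝ) ≤
      l.divisors.card * (N / (H * p) + 1) := by
  classical
  have hp0 : (0 : ℝ) < p := by exact_mod_cast hp.pos
  have hH0 : (0 : ℝ) < H := by exact_mod_cast hH
  have hsub : ((Icc 1 N).filter fun n => On a (l, n) p ∧ H ≤ Nat.gcd l n) ⊆
      (l.divisors.filter fun h => H ≤ h).biUnion fun h => ((Icc 1 (N / h)).filter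
        fun n => On a (l / h, n) p).image fun n => h * n := by
    intro n hn
    rw [Finset.mem_filter, Finset.mem_Icc] at hn
    obtain ⟨⟨hn1, hnN⟩, hon, hg⟩ := hn
    obtain ⟨h, hh⟩ : ∃ h, h = Nat.gcd l n := ⟨_, rfl⟩
    rw [← hh] at hg
    have hpos : 0 < h := by omega
    have hdl : h ∣ l := by rw [hh]; exact Nat.gcd_dvd_left _ _
    obtain ⟨n', hn'⟩ : h ∣ n := by rw [hh]; exact Nat.gcd_dvd_right _ _
    rw [Finset.mem_biUnion]
    refine ⟨h, Finset.mem_filter.2 ⟨Nat.mem_divisors.2 ⟨hdl, by omega⟩, hg⟩, ?_⟩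
    rw [Finset.mem_image]
    refine ⟨n', ?_, hn'.symm⟩
    rw [Finset.mem_filter, Finset.mem_Icc]
    refine ⟨⟨?_, ?_⟩, ?_⟩
    · rcases Nat.eq_zero_or_pos n' with h0 | h0
      · rw [h0] at hn'; omega
      · exact h0
    · exact (Nat.le_div_iff_mul_le hpos).2 (by rw [mul_comm, ← hn']; exact hnN)
    · have h1 : (p : ℤ) ∣ (n : ℤ) - l * a p := hon
      have e : (n : ℤ) - l * a p = h * ((n' : ℤ) - (l / h : ℕ) * a p) := by
        have e1 : (l : ℤ) = h * ((l / h : ℕ) : ℤ) := by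
          exact_mod_cast (Nat.mul_div_cancel' hdl).symm
        rw [hn', e1]
        push_cast
        ring
      rw [e] at h1
      have hpz : Prime (p : ℤ) := Nat.prime_iff_prime_int.1 hp
      rcases hpz.dvd_or_dvd h1 with h2 | h2
      · exfalso
        have h3 : p ∣ h := by exact_mod_cast h2
        have h4 := Nat.le_of_dvd hpos h3
        have h5 := Nat.le_of_dvd hl hdl
        omega
      · exact h2
  have hone : ∀ h ∈ l.divisors.filter (fun h => H ≤ h), ((((Icc 1 (N / h)).filter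
        fun n => On a (l / h, n) p).image fun n => h * n).card : ℝ) ≤ N / (H * p) + 1 := by
    intro h hh
    rw [Finset.mem_filter] at hh
    have hh0 : (0 : ℝ) < h := lt_of_lt_of_le hH0 (by exact_mod_cast hh.2)
    have h1 : (((Icc 1 (N / h)).filter
        fun n => On a (l / h, n) p).image fun n => h * n).card ≤ N / h / p + 1 :=
      Finset.card_image_le.trans
        (Pool.Agent.Hhelper87.Cover.ap_card_le (N / h) p (((l / h : ℕ) : ℤ) * a p))
    have h4 : ((N / h / p : ℕ) : ℝ) ≤ (N : ℝ) / h / p := by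
      refine Nat.cast_div_le.trans ?_
      exact div_le_div_of_nonneg_right Nat.cast_div_le hp0.le
    have h5 : (N : ℝ) / h / p ≤ N / (H * p) := by
      rw [div_div]
      refine div_le_div_of_nonneg_left (by positivity) (by positivity) ?_
      exact mul_le_mul_of_nonneg_right (by exact_mod_cast hh.2) hp0.le
    have h6 : ((N / h / p + 1 : ℕ) : ℝ) ≤ N / (H * p) + 1 := by
      push_cast
      linarith
    exact le_trans (by exact_mod_cast h1) h6
  have h1 : (((Icc 1 N).filter fun n => On a (l, n) p ∧ H ≤ Nat.gcd l n).card : ℝ) ≤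
      ∑ h ∈ l.divisors.filter (fun h => H ≤ h), ((N : ℝ) / (H * p) + 1) := by
    refine le_trans ?_ (Finset.sum_le_sum hone)
    exact_mod_cast (Finset.card_le_card hsub).trans Finset.card_biUnion_le
  refine h1.trans ?_
  rw [Finset.sum_const, nsmul_eq_mul]
  refine mul_le_mul_of_nonneg_right ?_ (by positivity)
  exact_mod_cast Finset.card_filter_le _ _

end Pool.Agent.Hhelper69.Cov
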