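import Mathlib
import Pool.Prelude.Def_F_b2ee6af0
import Pool.Agent.Hhelper69.Cov.Dil
import Pool.Agent.Hhelper87.Cover.Main
import Pool.Agent.Hhelper87.SigmaTwo.DivBound

/-!
# Cov/DilMain: almost all dilates of a choice have a large union
-/

set_option autoImplicit false

namespace Pool.Agent.Hhelper69.Cov

open Finset Filter Topology N7c497599

theorem dil_core (N L H : ℕ) (x D : ℝ) (P : Finset ℕ) (a : ℕ → ℤ) (S : Finset ℕ)
    (hS : S ⊆ Icc 1 L) (hP : ∀ p ∈ P, p.Prime ∧ x ≤ (p : ℝ) ∧ (p : ℝ) ≤ 2 * x) (hx : 1 ≤ x)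
    (hLx : (L : ℝ) < x) (h2x : 2 * x ≤ N) (hH : 1 ≤ H)
    (hD : ∀ l ∈ S, (l.divisors.card : ℝ) ≤ D) :
    ∃ I : ℝ, (S.card : ℝ) * P.card * N / (4 * x) ≤
        I + S.card * (P.card * (D * (N / (H * x) + 1))) ∧
      I ^ 2 ≤ (∑ l ∈ S, (((Icc 1 N).filter fun n => ∃ p ∈ P, On a (l, n) p).card : ℝ)) *
        (2 * P.card * L * N / x + 3 * H * (L * N / x ^ 2 + 1) * (P.card : ℝ) ^ 2) := by
  classical
  have hx0 : 0 < x := by linarith
  have hH0 : (0 : ℝ) < H := by exact_mod_cast hH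
  obtain ⟨G, hG⟩ : ∃ G : Finset (ℕ × ℕ), G = (S ×ˢ Icc 1 N).filter
    fun v => Nat.gcd v.1 v.2 < H := ⟨_, rfl⟩
  obtain ⟨t, ht⟩ : ∃ t : ℕ × ℕ → ℕ, ∀ v, t v = (P.filter fun p => On a v p).card :=
    ⟨_, fun _ => rfl⟩
  have hpN : ∀ p ∈ P, p ≤ N := by
    intro p hp
    have : (p : ℝ) ≤ N := (hP p hp).2.2.trans h2x
    exact_mod_cast this
  -- the lower bound for all incidences
  have hlow : (S.card : ℝ) * P.card * N / (4 * x) ≤ ((∑ v ∈ S ×ˢ Icc 1 N, t v : ℕ) : ℝ) := by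
    have h1 : ∑ v ∈ S ×ˢ Icc 1 N, t v =
        ∑ p ∈ P, ((S ×ˢ Icc 1 N).filter fun v => On a v p).card := by
      simp only [ht]
      exact (Finset.sum_card_bipartiteAbove_eq_sum_card_bipartiteBelow (On a)).symm ▸ rfl
    rw [h1]
    push_cast
    have h2 : ∀ p ∈ P, (S.card : ℝ) * (N / (4 * x)) ≤
        (((S ×ˢ Icc 1 N).filter fun v => On a v p).card : ℝ) := by
      intro p hp
      have hp0 : 0 < p := (hP p hp).1.pos
      have hpR : (0 : ℝ) < p := by exact_mod_cast hp0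
      have h3 : S.card * (N / p) ≤ ((S ×ˢ Icc 1 N).filter fun v => On a v p).card := by
        rw [Finset.card_filter, Finset.sum_product, ← smul_eq_mul, ← Finset.sum_const]
        refine Finset.sum_le_sum fun l _ => ?_
        rw [← Finset.card_filter]
        exact Pool.Agent.Hhelper87.Cover.ap_card_ge N p hp0 ((l : ℤ) * a p)
      have h4 : (N : ℝ) / (4 * x) ≤ ((N / p : ℕ) : ℝ) := by
        have h5 : 1 ≤ N / p := (Nat.one_le_div_iff hp0).2 (hpN p hp)
        have h6 : N < p * (N / p + 1) := Nat.lt_mul_div_succ N hp0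
        have h7 : N ≤ 2 * p * (N / p) := by nlinarith
        have h8 : (N : ℝ) ≤ 2 * p * ((N / p : ℕ) : ℝ) := by exact_mod_cast h7
        rw [div_le_iff₀ (by positivity)]
        have h9 : (p : ℝ) ≤ 2 * x := (hP p hp).2.2
        have h10 : (0 : ℝ) ≤ ((N / p : ℕ) : ℝ) := by positivity
        nlinarith
      have h5 : ((S.card * (N / p) : ℕ) : ℝ) ≤
          (((S ×ˢ Icc 1 N).filter fun v => On a v p).card : ℝ) := by exact_mod_cast h3
      push_cast at h5
      refine le_trans (mul_le_mul_of_nonneg_left h4 (by positivity)) h5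
    calc (S.card : ℝ) * P.card * N / (4 * x) = ∑ p ∈ P, (S.card : ℝ) * (N / (4 * x)) := by
          rw [Finset.sum_const, nsmul_eq_mul]
          ring
      _ ≤ _ := Finset.sum_le_sum h2
  -- the points with a large common divisor
  have hbig : ((∑ v ∈ (S ×ˢ Icc 1 N).filter (fun v => ¬ Nat.gcd v.1 v.2 < H), t v : ℕ) : ℝ) ≤
      S.card * (P.card * (D * (N / (H * x) + 1))) := by
    have h1 : ∑ v ∈ (S ×ˢ Icc 1 N).filter (fun v => ¬ Nat.gcd v.1 v.2 < H), t v =
        ∑ p ∈ P, (((S ×ˢ Icc 1 N).filter (fun v => ¬ Nat.gcd v.1 v.2 < H)).filter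
          fun v => On a v p).card := by
      simp only [ht]
      exact (Finset.sum_card_bipartiteAbove_eq_sum_card_bipartiteBelow (On a)).symm ▸ rfl
    rw [h1]
    push_cast
    have h2 : ∀ p ∈ P, ((((S ×ˢ Icc 1 N).filter (fun v => ¬ Nat.gcd v.1 v.2 < H)).filter
        fun v => On a v p).card : ℝ) ≤ S.card * (D * (N / (H * x) + 1)) := by
      intro p hp
      have hpR : (0 : ℝ) < p := by exact_mod_cast (hP p hp).1.pos
      have h4 : (((S ×ˢ Icc 1 N).filter (fun v => ¬ Nat.gcd v.1 v.2 < H)).filter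
          fun v => On a v p).card =
          ∑ l ∈ S, ((Icc 1 N).filter fun n => On a (l, n) p ∧ H ≤ Nat.gcd l n).card := by
        rw [Finset.filter_filter, Finset.card_filter, Finset.sum_product]
        refine Finset.sum_congr rfl fun l _ => ?_
        rw [← Finset.card_filter]
        congr 1
        refine Finset.filter_congr fun n _ => ?_
        simp only [not_lt]
        tauto
      rw [h4]
      push_cast
      have h5 : ∀ l ∈ S, (((Icc 1 N).filter
          fun n => On a (l, n) p ∧ H ≤ Nat.gcd l n).card : ℝ) ≤ D * (N / (H * x) + 1) := by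
        intro l hl
        have hl1 := Finset.mem_Icc.1 (hS hl)
        have hLp : L < p := by
          have : (L : ℝ) < p := lt_of_lt_of_le hLx (hP p hp).2.1
          exact_mod_cast this
        have h6 := row_gcd a N l H p (hP p hp).1 hH hl1.1 (by omega)
        have h7 : (N : ℝ) / (H * p) ≤ N / (H * x) := by
          refine div_le_div_of_nonneg_left (by positivity) (by positivity) ?_
          exact mul_le_mul_of_nonneg_left (hP p hp).2.1 hH0.le
        have hD0 : 0 ≤ D := le_trans (by positivity) (hD l hl)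
        refine h6.trans ?_
        exact mul_le_mul (hD l hl) (by linarith) (by positivity) hD0
      refine (Finset.sum_le_sum h5).trans (le_of_eq ?_)
      rw [Finset.sum_const, nsmul_eq_mul]
    calc ∑ p ∈ P, ((((S ×ˢ Icc 1 N).filter (fun v => ¬ Nat.gcd v.1 v.2 < H)).filter
        fun v => On a v p).card : ℝ) ≤
        ∑ p ∈ P, (S.card * (D * (N / (H * x) + 1)) : ℝ) := Finset.sum_le_sum h2
      _ = _ := by
          rw [Finset.sum_const, nsmul_eq_mul]
          ring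
  have hsplit : ∑ v ∈ G, t v + ∑ v ∈ (S ×ˢ Icc 1 N).filter (fun v => ¬ Nat.gcd v.1 v.2 < H), t v =
      ∑ v ∈ S ×ˢ Icc 1 N, t v := by
    rw [hG]
    exact Finset.sum_filter_add_sum_filter_not _ _ _
  refine ⟨((∑ v ∈ G, t v : ℕ) : ℝ), ?_, ?_⟩
  · have h1 : ((∑ v ∈ S ×ˢ Icc 1 N, t v : ℕ) : ℝ) = ((∑ v ∈ G, t v : ℕ) : ℝ) +
        ((∑ v ∈ (S ×ˢ Icc 1 N).filter (fun v => ¬ Nat.gcd v.1 v.2 < H), t v : ℕ) : ℝ) := by
      rw [← hsplit]
      push_cast
      rfl
    linarith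
  · -- Cauchy-Schwarz
    obtain ⟨G', hG'⟩ : ∃ G' : Finset (ℕ × ℕ), G' = G.filter fun v => 0 < t v := ⟨_, rfl⟩
    have h1 : ((∑ v ∈ G, t v : ℕ) : ℝ) = ∑ v ∈ G', (t v : ℝ) := by
      push_cast
      rw [hG', Finset.sum_filter]
      refine Finset.sum_congr rfl fun v _ => ?_
      by_cases h : 0 < t v
      · rw [if_pos h]
      · rw [if_neg h]
        have : t v = 0 := by omega
        rw [this]
        simp
    have h2 := sq_sum_le_card_mul_sum_sq (s := G') (f := fun v => (t v : ℝ))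
    have h3 : (G'.card : ℝ) ≤
        ∑ l ∈ S, (((Icc 1 N).filter fun n => ∃ p ∈ P, On a (l, n) p).card : ℝ) := by
      have h4 : G'.card ≤ ∑ l ∈ S, ((Icc 1 N).filter fun n => ∃ p ∈ P, On a (l, n) p).card := by
        have h5 : G' ⊆ (S ×ˢ Icc 1 N).filter fun v => ∃ p ∈ P, On a (v.1, v.2) p := by
          intro v hv
          rw [hG', Finset.mem_filter, hG, Finset.mem_filter] at hv
          rw [Finset.mem_filter]
          refine ⟨hv.1.1, ?_⟩
          have h6 := hv.2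
          rw [ht, Finset.card_pos] at h6
          obtain ⟨p, hp⟩ := h6
          rw [Finset.mem_filter] at hp
          exact ⟨p, hp.1, hp.2⟩
        refine (Finset.card_le_card h5).trans ?_
        rw [Finset.card_filter, Finset.sum_product]
        refine Finset.sum_le_sum fun l _ => ?_
        rw [← Finset.card_filter]
      exact_mod_cast h4
    have h4 : ∑ v ∈ G', (t v : ℝ) ^ 2 ≤
        2 * P.card * L * N / x + 3 * H * (L * N / x ^ 2 + 1) * (P.card : ℝ) ^ 2 := by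
      have h5 : ∑ v ∈ G', (t v : ℝ) ^ 2 ≤ ∑ v ∈ G, (t v : ℝ) ^ 2 := by
        rw [hG']
        exact Finset.sum_le_sum_of_subset_of_nonneg (Finset.filter_subset _ _)
          fun _ _ _ => sq_nonneg _
      obtain ⟨H', hH'⟩ : ∃ H' : ℕ, H' = ⌈2 * ((H : ℝ) * (L * N / x ^ 2 + 1))⌉₊ := ⟨_, rfl⟩
      have hH'le : (H' : ℝ) ≤ 3 * H * (L * N / x ^ 2 + 1) := by
        have h6 : (H' : ℝ) < 2 * ((H : ℝ) * (L * N / x ^ 2 + 1)) + 1 := by
          rw [hH']
          exact Nat.ceil_lt_add_one (by positivity)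
        have h7 : (1 : ℝ) ≤ H * (L * N / x ^ 2 + 1) := by
          have h8 : (1 : ℝ) ≤ H := by exact_mod_cast hH
          have h9 : 0 ≤ (L : ℝ) * N / x ^ 2 := by positivity
          nlinarith
        linarith
      have h6 : ∑ v ∈ G, (t v) ^ 2 ≤ ∑ v ∈ G, t v + H' * P.card ^ 2 := by
        simp only [ht]
        refine sum_sq_le_of_common G P (On a) H' fun p hp q hq hpq => ?_
        have h7 := pair_le a N L H p q x hx0 (hP p hp).1 (hP q hq).1 hpq (hP p hp).2.1
          (hP q hq).2.1 G (by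
            intro v hv
            rw [hG, Finset.mem_filter, Finset.mem_product] at hv
            exact ⟨Finset.mem_Icc.1 (hS hv.1.1), Finset.mem_Icc.1 hv.1.2, hv.2⟩)
        have h8 := h7.trans (Nat.le_ceil _)
        rw [← hH'] at h8
        exact_mod_cast h8
      have h7 : ((∑ v ∈ G, t v : ℕ) : ℝ) ≤ 2 * P.card * L * N / x := by
        have h8 : ∑ v ∈ G, t v ≤ ∑ v ∈ Icc 1 L ×ˢ Icc 1 N, t v := by
          refine Finset.sum_le_sum_of_subset ?_
          rw [hG]
          exact (Finset.filter_subset _ _).trans (Finset.product_subset_product hS subset_rfl)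
        have h9 : ∑ v ∈ Icc 1 L ×ˢ Icc 1 N, t v =
            ∑ p ∈ P, ((Icc 1 L ×ˢ Icc 1 N).filter fun v => On a v p).card := by
          simp only [ht]
          exact (Finset.sum_card_bipartiteAbove_eq_sum_card_bipartiteBelow (On a)).symm ▸ rfl
        have h10 : ∀ p ∈ P, (((Icc 1 L ×ˢ Icc 1 N).filter fun v => On a v p).card : ℝ) ≤
            2 * L * N / x := by
          intro p hp
          have hpR : (0 : ℝ) < p := by exact_mod_cast (hP p hp).1.pos
          have h11 : ((Icc 1 L ×ˢ Icc 1 N).filter fun v => On a v p).card ≤ L * (N / p + 1) := by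
            rw [Finset.card_filter, Finset.sum_product]
            have h12 : ∀ l ∈ Icc 1 L, ∑ n ∈ Icc 1 N, (if On a (l, n) p then 1 else 0) ≤
                N / p + 1 := by
              intro l _
              rw [← Finset.card_filter]
              exact Pool.Agent.Hhelper87.Cover.ap_card_le N p ((l : ℤ) * a p)
            refine (Finset.sum_le_sum h12).trans ?_
            rw [Finset.sum_const, Nat.card_Icc, smul_eq_mul]
            simp
          have h12 : ((L * (N / p + 1) : ℕ) : ℝ) ≤ L * (2 * (N / x)) := by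
            push_cast
            refine mul_le_mul_of_nonneg_left ?_ (by positivity)
            have h13 : ((N / p : ℕ) : ℝ) ≤ (N : ℝ) / p := Nat.cast_div_le
            have h14 : (N : ℝ) / p ≤ N / x :=
              div_le_div_of_nonneg_left (by positivity) hx0 (hP p hp).2.1
            have h15 : 1 ≤ (N : ℝ) / x := by
              rw [le_div_iff₀ hx0]
              linarith
            linarith
          refine le_trans (by exact_mod_cast h11) (h12.trans (le_of_eq ?_))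
          ring
        have h11 : ((∑ v ∈ G, t v : ℕ) : ℝ) ≤
            ∑ p ∈ P, (((Icc 1 L ×ˢ Icc 1 N).filter fun v => On a v p).card : ℝ) := by
          rw [h9] at h8
          exact_mod_cast h8
        refine (h11.trans (Finset.sum_le_sum h10)).trans (le_of_eq ?_)
        rw [Finset.sum_const, nsmul_eq_mul]
        ring
      have h8 : ∑ v ∈ G, (t v : ℝ) ^ 2 ≤ ((∑ v ∈ G, t v : ℕ) : ℝ) + H' * (P.card : ℝ) ^ 2 := by
        exact_mod_cast h6
      have h9 : (H' : ℝ) * (P.card : ℝ) ^ 2 ≤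
          3 * H * (L * N / x ^ 2 + 1) * (P.card : ℝ) ^ 2 :=
        mul_le_mul_of_nonneg_right hH'le (by positivity)
      linarith
    rw [h1]
    refine h2.trans ?_
    refine mul_le_mul h3 h4 (Finset.sum_nonneg fun _ _ => sq_nonneg _) ?_
    exact Finset.sum_nonneg fun _ _ => by positivity

/-- the union is part of the sieved set of the dilated choice -/
theorem union_le_sieved (N l : ℕ) (a : ℕ → ℤ) (lo hi : ℝ) (P : Finset ℕ)
    (hP : ∀ p ∈ P, p.Prime ∧ lo ≤ (p : ℝ) ∧ (p : ℝ) < hi) :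
    ((Icc 1 N).filter fun n => ∃ p ∈ P, On a (l, n) p).card ≤
      sievedCard N (fun p => l * a p) lo hi := by
  classical
  unfold sievedCard sievedSet
  refine Finset.card_le_card_of_injOn (fun n : ℕ => (n : ℤ)) ?_
    (fun m _ n _ h => Int.natCast_inj.1 h)
  intro n hn
  rw [Finset.mem_coe, Finset.mem_filter, Finset.mem_Icc] at hn
  obtain ⟨⟨h1, h2⟩, p, hpP, hinc⟩ := hn
  rw [Finset.mem_coe, Finset.mem_filter, Finset.mem_Icc]
  have h1' : (1 : ℤ) ≤ (n : ℤ) := by exact_mod_cast h1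
  have h2' : (n : ℤ) ≤ (N : ℤ) := by exact_mod_cast h2
  exact ⟨⟨h1', h2'⟩, p, (hP p hpP).1, (hP p hpP).2.1, (hP p hpP).2.2, hinc⟩

theorem dil_main (α δ : ℝ) (hα : 1 / 2 < α) (hα1 : α < 1) (hδ : 0 < δ) :
    ∀ᶠ N : ℕ in atTop, ∀ L : ℕ, (L : ℝ) < (N : ℝ) ^ α → ∀ hi : ℝ, 2 * (N : ℝ) ^ α ≤ hi →
      ∀ a : ℕ → ℤ, ∀ M : ℝ, 0 ≤ M →
      (((Icc 1 L).filter fun l : ℕ =>
        (sievedCard N (fun p => l * a p) ((N : ℝ) ^ α) hi : ℝ) < M).card : ℝ) ≤
        M * (N : ℝ) ^ δ * ((N : ℝ) ^ (2 * α - 2) + L / N) := by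
  classical
  have hα0 : 0 < α := by linarith
  have hcast := tendsto_natCast_atTop_atTop (R := ℝ)
  obtain ⟨η, hη⟩ : ∃ η : ℝ, η = δ / 4 := ⟨_, rfl⟩
  have hη0 : 0 < η := by rw [hη]; positivity
  obtain ⟨κ, hκ⟩ : ∃ κ : ℝ, κ = min (η / 2) ((1 - α) / 4) := ⟨_, rfl⟩
  have hκ0 : 0 < κ := by
    rw [hκ]
    have : 0 < (1 - α) / 4 := by linarith
    positivity
  have hκη : κ ≤ η / 2 := by rw [hκ]; exact min_le_left _ _
  have hκα : κ ≤ (1 - α) / 4 := by rw [hκ]; exact min_le_right _ _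
  obtain ⟨C, hC1, hC⟩ := Pool.Agent.Hhelper87.divisor_bound κ hκ0
  have hprimes : ∀ᶠ x : ℝ in atTop, ∀ S : Finset ℕ,
      (∀ p : ℕ, p.Prime → x ^ α ≤ p → (p : ℝ) < 2 * x ^ α → p ∈ S) →
      (x ^ α) ^ (1 - η) ≤ S.card :=
    (tendsto_rpow_atTop hα0).eventually (Pool.Agent.Hhelper87.Cover.primes_count η hη0)
  filter_upwards [hcast.eventually hprimes,
    hcast.eventually (Pool.Agent.Hhelper87.Cover.ev_pow (16 * C) κ η (by linarith)),
    hcast.eventually (Pool.Agent.Hhelper87.Cover.ev_pow (16 * C) (α + κ) 1 (by linarith)),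
    hcast.eventually (Pool.Agent.Hhelper87.Cover.ev_pow 512 0 (3 * η) (by linarith)),
    hcast.eventually (Pool.Agent.Hhelper87.Cover.ev_pow 2 α 1 hα1),
    eventually_ge_atTop 2] with N hpr hl1 hl2 hl3 hl4 hN2 L hLx hi hhi a M hM0
  rw [Real.rpow_zero, mul_one] at hl3
  rw [Real.rpow_one] at hl4 hl2
  have hN0 : (0 : ℝ) < N := by
    have : (2 : ℝ) ≤ N := by exact_mod_cast hN2
    linarith
  have hNR : (1 : ℝ) ≤ N := by
    have : (2 : ℝ) ≤ N := by exact_mod_cast hN2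
    linarith
  obtain ⟨x, hx⟩ : ∃ x : ℝ, x = (N : ℝ) ^ α := ⟨_, rfl⟩
  rw [← hx] at hpr hl4 hLx hhi ⊢
  have hx0 : 0 < x := by rw [hx]; positivity
  have hx1 : 1 ≤ x := by rw [hx]; exact Real.one_le_rpow hNR hα0.le
  obtain ⟨S, hS⟩ : ∃ S : Finset ℕ, S = (Icc 1 L).filter fun l : ℕ =>
      (sievedCard N (fun p => l * a p) x hi : ℝ) < M := ⟨_, rfl⟩
  rw [← hS]
  obtain ⟨b, hb⟩ : ∃ b : ℝ, b = (S.card : ℝ) := ⟨_, rfl⟩
  rw [← hb]
  have hrhs : 0 ≤ M * (N : ℝ) ^ δ * ((N : ℝ) ^ (2 * α - 2) + L / N) := by positivity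
  rcases (show 0 ≤ b by rw [hb]; positivity).eq_or_lt with hb0 | hb0
  · rw [← hb0]
    exact hrhs
  -- the primes
  obtain ⟨P, hP⟩ : ∃ P : Finset ℕ, P = (Finset.range ⌈2 * x⌉₊).filter
    (fun p : ℕ => p.Prime ∧ x ≤ (p : ℝ)) := ⟨_, rfl⟩
  have hPmem : ∀ p : ℕ, p ∈ P ↔ p.Prime ∧ x ≤ (p : ℝ) ∧ (p : ℝ) < 2 * x := by
    intro p
    rw [hP, Finset.mem_filter, Finset.mem_range, Nat.lt_ceil]
    tauto
  have hPc : x ≤ P.card * (N : ℝ) ^ η := by
    have h1 := hpr P fun p hp h2 h3 => (hPmem p).2 ⟨hp, h2, h3⟩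
    have h2 : x ^ (1 - η) * x ^ η = x := by
      rw [← Real.rpow_add hx0]
      simp
    have h3 : x ^ η ≤ (N : ℝ) ^ η := by
      refine Real.rpow_le_rpow hx0.le ?_ hη0.le
      linarith
    calc x = x ^ (1 - η) * x ^ η := h2.symm
      _ ≤ P.card * (N : ℝ) ^ η := mul_le_mul h1 h3 (by positivity) (by positivity)
  have hPc0 : (0 : ℝ) < P.card := by
    by_contra h
    have h1 : (P.card : ℝ) = 0 := le_antisymm (not_lt.1 h) (by positivity)
    rw [h1, zero_mul] at hPc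
    linarith
  -- the core inequality
  have hNη : 1 ≤ (N : ℝ) ^ η := Real.one_le_rpow hNR hη0.le
  obtain ⟨H, hH⟩ : ∃ H : ℕ, H = ⌈(N : ℝ) ^ η⌉₊ := ⟨_, rfl⟩
  have hHge : (N : ℝ) ^ η ≤ (H : ℝ) := by rw [hH]; exact Nat.le_ceil _
  have hHle : (H : ℝ) ≤ 2 * (N : ℝ) ^ η := by
    have h1 : (H : ℝ) < (N : ℝ) ^ η + 1 := by rw [hH]; exact Nat.ceil_lt_add_one (by positivity)
    linarith
  have hH1 : 1 ≤ H := by
    have : (1 : ℝ) ≤ H := by linarith
    exact_mod_cast this
  have hH0 : (0 : ℝ) < H := by exact_mod_cast hH1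
  have hLN : (L : ℝ) ≤ N := by linarith
  have hD : ∀ l ∈ S, (l.divisors.card : ℝ) ≤ C * (N : ℝ) ^ κ := by
    intro l hl
    rw [hS, Finset.mem_filter, Finset.mem_Icc] at hl
    refine (hC l (by omega)).trans ?_
    refine mul_le_mul_of_nonneg_left ?_ (by linarith)
    refine Real.rpow_le_rpow (by positivity) ?_ hκ0.le
    have : (l : ℝ) ≤ L := by exact_mod_cast hl.1.2
    linarith
  obtain ⟨I, hI1, hI2⟩ := dil_core N L H x (C * (N : ℝ) ^ κ) P a S
    (by rw [hS]; exact Finset.filter_subset _ _)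
    (fun p hp => ⟨((hPmem p).1 hp).1, ((hPmem p).1 hp).2.1, ((hPmem p).1 hp).2.2.le⟩) hx1 hLx
    hl4.le hH1 hD
  rw [← hb] at hI1
  -- the incidences with a large divisor are few
  have hfew : C * (N : ℝ) ^ κ * (N / (H * x) + 1) ≤ N / (8 * x) := by
    have h1 : C * (N : ℝ) ^ κ * (N / (H * x)) ≤ N / (16 * x) := by
      have h2 : C * (N : ℝ) ^ κ * (N / (H * x)) = (N / x) * (C * (N : ℝ) ^ κ / H) := by
        field_simp
      have h3 : C * (N : ℝ) ^ κ / H ≤ 1 / 16 := by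
        rw [div_le_iff₀ hH0]
        linarith
      have h4 : (N : ℝ) / (16 * x) = (N / x) * (1 / 16) := by
        field_simp
      rw [h2, h4]
      exact mul_le_mul_of_nonneg_left h3 (by positivity)
    have h2 : C * (N : ℝ) ^ κ ≤ N / (16 * x) := by
      rw [le_div_iff₀ (by positivity)]
      have h3 : (N : ℝ) ^ (α + κ) = x * (N : ℝ) ^ κ := by
        rw [hx, Real.rpow_add hN0]
      rw [h3] at hl2
      linarith
    have h3 : (N : ℝ) / (8 * x) = N / (16 * x) + N / (16 * x) := by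
      field_simp
      ring
    rw [mul_add, mul_one, h3]
    exact add_le_add h1 h2
  have hIlow : b * P.card * N / (8 * x) ≤ I := by
    have h1 : b * (P.card * (C * (N : ℝ) ^ κ * (N / (H * x) + 1))) ≤
        b * (P.card * (N / (8 * x))) := by
      refine mul_le_mul_of_nonneg_left ?_ hb0.le
      exact mul_le_mul_of_nonneg_left hfew hPc0.le
    have h2 : b * P.card * N / (4 * x) = b * P.card * N / (8 * x) +
        b * (P.card * (N / (8 * x))) := by
      field_simp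
      ring
    rw [h2] at hI1
    linarith
  -- the union
  have hU : ∑ l ∈ S, (((Icc 1 N).filter fun n => ∃ p ∈ P, On a (l, n) p).card : ℝ) ≤ b * M := by
    have h1 : ∀ l ∈ S, (((Icc 1 N).filter fun n => ∃ p ∈ P, On a (l, n) p).card : ℝ) ≤ M := by
      intro l hl
      rw [hS, Finset.mem_filter] at hl
      refine le_trans ?_ hl.2.le
      exact_mod_cast union_le_sieved N l a x hi P fun p hp =>
        ⟨((hPmem p).1 hp).1, ((hPmem p).1 hp).2.1, ((hPmem p).1 hp).2.2.trans_le hhi⟩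
    refine (Finset.sum_le_sum h1).trans (le_of_eq ?_)
    rw [Finset.sum_const, nsmul_eq_mul, hb]
  obtain ⟨w, hw⟩ : ∃ w : ℝ, w = (L : ℝ) * N / x ^ 2 + 1 := ⟨_, rfl⟩
  have hw1 : 1 ≤ w := by
    rw [hw]
    have : 0 ≤ (L : ℝ) * N / x ^ 2 := by positivity
    linarith
  rw [← hw] at hI2
  have hE : 2 * P.card * L * N / x + 3 * H * w * (P.card : ℝ) ^ 2 ≤
      8 * (N : ℝ) ^ η * w * (P.card : ℝ) ^ 2 := by
    have h1 : 2 * P.card * L * N / x ≤ 2 * (N : ℝ) ^ η * w * (P.card : ℝ) ^ 2 := by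
      have h2 : (L : ℝ) * N ≤ w * x ^ 2 := by
        rw [hw, add_mul, div_mul_cancel₀ _ (by positivity)]
        have : 0 < x ^ 2 := by positivity
        linarith
      rw [div_le_iff₀ hx0]
      calc 2 * (P.card : ℝ) * L * N = 2 * P.card * (L * N) := by ring
        _ ≤ 2 * P.card * (w * x ^ 2) := mul_le_mul_of_nonneg_left h2 (by positivity)
        _ = 2 * P.card * w * x * x := by ring
        _ ≤ 2 * P.card * w * x * (P.card * (N : ℝ) ^ η) :=
            mul_le_mul_of_nonneg_left hPc (by positivity)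
        _ = _ := by ring
    have h2 : 3 * (H : ℝ) * w * (P.card : ℝ) ^ 2 ≤ 6 * (N : ℝ) ^ η * w * (P.card : ℝ) ^ 2 := by
      refine mul_le_mul_of_nonneg_right ?_ (by positivity)
      refine mul_le_mul_of_nonneg_right ?_ (by linarith)
      linarith
    have h3 : 8 * (N : ℝ) ^ η * w * (P.card : ℝ) ^ 2 = 2 * (N : ℝ) ^ η * w * (P.card : ℝ) ^ 2 +
        6 * (N : ℝ) ^ η * w * (P.card : ℝ) ^ 2 := by ring
    rw [h3]
    exact add_le_add h1 h2
  have h1 : (b * P.card * N / (8 * x)) ^ 2 ≤ b * M * (8 * (N : ℝ) ^ η * w * (P.card : ℝ) ^ 2) := by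
    calc (b * P.card * N / (8 * x)) ^ 2 ≤ I ^ 2 := pow_le_pow_left₀ (by positivity) hIlow 2
      _ ≤ _ := hI2
      _ ≤ _ := mul_le_mul hU hE (by positivity) (by positivity)
  have h3 : (b * P.card * N / (8 * x)) ^ 2 =
      (b * (b * (N : ℝ) ^ 2 / (64 * x ^ 2))) * (P.card : ℝ) ^ 2 := by
    field_simp
    ring
  have h2 : b * M * (8 * (N : ℝ) ^ η * w * (P.card : ℝ) ^ 2) =
      (b * (8 * M * (N : ℝ) ^ η * w)) * (P.card : ℝ) ^ 2 := by ring
  rw [h2, h3] at h1
  have h4 := le_of_mul_le_mul_left (le_of_mul_le_mul_right h1 (by positivity)) hb0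
  rw [div_le_iff₀ (by positivity)] at h4
  have e2 : x ^ 2 = (N : ℝ) ^ (2 * α) := by
    rw [hx, ← Real.rpow_natCast, ← Real.rpow_mul hN0.le]
    congr 1
    push_cast
    ring
  have e3 : (N : ℝ) ^ (2 * α - 2) = x ^ 2 / (N : ℝ) ^ 2 := by
    rw [e2, Real.rpow_sub hN0]
    congr 1
    rw [← Real.rpow_natCast]
    norm_num
  have e4 : (N : ℝ) ^ (2 * α - 2) + L / N = w * (x ^ 2 / (N : ℝ) ^ 2) := by
    rw [e3, hw]
    field_simp
    ring
  have h5 : b ≤ 512 * M * (N : ℝ) ^ η * (w * (x ^ 2 / (N : ℝ) ^ 2)) := by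
    have h6 : 512 * M * (N : ℝ) ^ η * (w * (x ^ 2 / (N : ℝ) ^ 2)) =
        8 * M * (N : ℝ) ^ η * w * (64 * x ^ 2) / (N : ℝ) ^ 2 := by
      field_simp
      ring
    rw [h6, le_div_iff₀ (by positivity)]
    exact h4
  rw [e4]
  refine h5.trans ?_
  refine mul_le_mul_of_nonneg_right ?_ (by positivity)
  have h6 : (N : ℝ) ^ δ = (N : ℝ) ^ (3 * η) * (N : ℝ) ^ η := by
    rw [← Real.rpow_add hN0]
    congr 1
    rw [hη]
    ring
  rw [h6]
  calc 512 * M * (N : ℝ) ^ η = M * (512 * (N : ℝ) ^ η) := by ring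
    _ ≤ M * ((N : ℝ) ^ (3 * η) * (N : ℝ) ^ η) := by
        refine mul_le_mul_of_nonneg_left ?_ hM0
        exact mul_le_mul_of_nonneg_right hl3.le (by positivity)

end Pool.Agent.Hhelper69.Cov
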